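import Pool.Agent.helper12.SP.Defs

/-!
# The diagonal language, hard on average
-/

set_option autoImplicit false

namespace Pool.Agent.helper12.SP

/-- the number of inputs of length `n` on which the automaton `(q, M)` with advice `Z` gives in time
the answer prescribed by the bits of `Λ` -/
def ag (N p κ n q M Z Λ : ℕ) : ℕ :=
  ∑ r ∈ Finset.range (pw N 2 n), if sm N p κ n q M Z r + dg N 2 Λ r = 1 then 1 else 0

/-- the bits of `Λ` are hard for all automata `(q, M)` with advice `Z` -/
def good (N p κ n Λ : ℕ) : Prop :=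
  ∀ q < n, ∀ M < n, ∀ Z < pw N 2 (pw N 2 n + 1 - 2 * n),
    ag N p κ n q M Z Λ < pw N 2 n ∧
      (2 * ag N p κ n q M Z Λ - pw N 2 n) ^ 2 ≤ 2 * pw N 2 n * (Nat.log 2 Z + 2 * n)

instance (N p κ n Λ : ℕ) : Decidable (good N p κ n Λ) := by
  unfold good
  infer_instance

/-- the least hard `Λ` -/
def gn (N p κ n : ℕ) : ℕ :=
  Nat.rec 0 (fun _ ih => if good N p κ n ih then ih else ih + 1) (pw N 2 (pw N 2 n))

/-- the characteristic function of the language -/
def hard (c X : ℕ) : ℕ :=
  dg (capN c X) 2 (gn (capN c X) (np (4 * kap c (Nat.log 2 X) + 2)) (kap c (Nat.log 2 X))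
    (Nat.log 2 X)) (X - 2 ^ Nat.log 2 X)

end Pool.Agent.helper12.SP
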