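import Pool.Agent.helper77.SP.D3
import Pool.Agent.helper12.SP.Defs2

/-!
# The language which is hard on average is computable within polynomial bounds
-/

set_option autoImplicit false

namespace Pool.Agent.helper12.SP

section D4

variable {α : Type} [Ctx α] {bd N p κ n q M Z Λ r v : α → ℕ}

theorem Cmp.ag (hN : Cmp bd N) (hp : Cmp bd p) (hp1 : ∀ a, 1 ≤ p a) (hκ : Cmp bd κ)
    (hn : Cmp bd n) (hq : Cmp bd q) (hM : Cmp bd M) (hZ : Cmp bd Z) (hΛ : Cmp bd Λ) :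
    Cmp bd (fun a => SP.ag (N a) (p a) (κ a) (n a) (q a) (M a) (Z a) (Λ a)) := by
  refine Cmp.sum (h := fun x : α × ℕ =>
    if SP.sm (N x.1) (p x.1) (κ x.1) (n x.1) (q x.1) (M x.1) (Z x.1) x.2 +
      SP.dg (N x.1) 2 (Λ x.1) x.2 = 1 then 1 else 0) (Cmp.pw hN (Cmp.const 2) hn) ?_
  exact Cmp.ite (CmpP.eq (Cmp.add (Cmp.sm hN.wk1 hp.wk1 (fun x => hp1 x.1) hκ.wk1 hn.wk1 hq.wk1
    hM.wk1 hZ.wk1 (Cmp.i bd)) (Cmp.dg hN.wk1 (Cmp.const 2) hΛ.wk1 (Cmp.i bd))) (Cmp.const 1))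
    (Cmp.const 1) (Cmp.const 0)

theorem CmpP.good (hN : Cmp bd N) (hp : Cmp bd p) (hp1 : ∀ a, 1 ≤ p a) (hκ : Cmp bd κ)
    (hn : Cmp bd n) (hΛ : Cmp bd Λ) :
    CmpP bd (fun a => SP.good (N a) (p a) (κ a) (n a) (Λ a)) := by
  have hq3 : Cmp (fun z : ((α × ℕ) × ℕ) × ℕ => bd z.1.1.1 + z.1.1.2 + z.1.2 + z.2)
      (fun z => z.1.1.2) := (Cmp.i bd).wk1.wk1
  have hM3 : Cmp (fun z : ((α × ℕ) × ℕ) × ℕ => bd z.1.1.1 + z.1.1.2 + z.1.2 + z.2)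
      (fun z => z.1.2) := (Cmp.i (fun x : α × ℕ => bd x.1 + x.2)).wk1
  have hZ3 : Cmp (fun z : ((α × ℕ) × ℕ) × ℕ => bd z.1.1.1 + z.1.1.2 + z.1.2 + z.2)
      (fun z => z.2) := Cmp.i (fun y : (α × ℕ) × ℕ => bd y.1.1 + y.1.2 + y.2)
  have hag := Cmp.ag hN.wk1.wk1.wk1 hp.wk1.wk1.wk1 (fun z : ((α × ℕ) × ℕ) × ℕ => hp1 z.1.1.1)
    hκ.wk1.wk1.wk1 hn.wk1.wk1.wk1 hq3 hM3 hZ3 hΛ.wk1.wk1.wk1
  have hpw : Cmp (fun z : ((α × ℕ) × ℕ) × ℕ => bd z.1.1.1 + z.1.1.2 + z.1.2 + z.2)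
      (fun z => SP.pw (N z.1.1.1) 2 (n z.1.1.1)) :=
    Cmp.pw hN.wk1.wk1.wk1 (Cmp.const 2) hn.wk1.wk1.wk1
  refine CmpP.ball (P := fun x : α × ℕ => ∀ M < n x.1,
    ∀ Z < SP.pw (N x.1) 2 (SP.pw (N x.1) 2 (n x.1) + 1 - 2 * n x.1),
      SP.ag (N x.1) (p x.1) (κ x.1) (n x.1) x.2 M Z (Λ x.1) < SP.pw (N x.1) 2 (n x.1) ∧
      (2 * SP.ag (N x.1) (p x.1) (κ x.1) (n x.1) x.2 M Z (Λ x.1) - SP.pw (N x.1) 2 (n x.1)) ^ 2 ≤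
        2 * SP.pw (N x.1) 2 (n x.1) * (Nat.log 2 Z + 2 * n x.1)) hn ?_
  refine CmpP.ball (P := fun y : (α × ℕ) × ℕ =>
    ∀ Z < SP.pw (N y.1.1) 2 (SP.pw (N y.1.1) 2 (n y.1.1) + 1 - 2 * n y.1.1),
      SP.ag (N y.1.1) (p y.1.1) (κ y.1.1) (n y.1.1) y.1.2 y.2 Z (Λ y.1.1) <
        SP.pw (N y.1.1) 2 (n y.1.1) ∧
      (2 * SP.ag (N y.1.1) (p y.1.1) (κ y.1.1) (n y.1.1) y.1.2 y.2 Z (Λ y.1.1) -
        SP.pw (N y.1.1) 2 (n y.1.1)) ^ 2 ≤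
        2 * SP.pw (N y.1.1) 2 (n y.1.1) * (Nat.log 2 Z + 2 * n y.1.1)) hn.wk1 ?_
  refine CmpP.ball (P := fun z : ((α × ℕ) × ℕ) × ℕ =>
      SP.ag (N z.1.1.1) (p z.1.1.1) (κ z.1.1.1) (n z.1.1.1) z.1.1.2 z.1.2 z.2 (Λ z.1.1.1) <
        SP.pw (N z.1.1.1) 2 (n z.1.1.1) ∧
      (2 * SP.ag (N z.1.1.1) (p z.1.1.1) (κ z.1.1.1) (n z.1.1.1) z.1.1.2 z.1.2 z.2 (Λ z.1.1.1) -
        SP.pw (N z.1.1.1) 2 (n z.1.1.1)) ^ 2 ≤
        2 * SP.pw (N z.1.1.1) 2 (n z.1.1.1) * (Nat.log 2 z.2 + 2 * n z.1.1.1))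
    (Cmp.pw hN.wk1.wk1 (Cmp.const 2) (Cmp.sub (Cmp.add (Cmp.pw hN.wk1.wk1 (Cmp.const 2)
      hn.wk1.wk1) (Cmp.const 1)) (Cmp.mul (Cmp.const 2) hn.wk1.wk1))) ?_
  exact CmpP.and (CmpP.lt hag hpw)
    (CmpP.le (Cmp.pow_const (Cmp.sub (Cmp.mul (Cmp.const 2) hag) hpw) 2)
      (Cmp.mul (Cmp.mul (Cmp.const 2) hpw)
        (Cmp.add (Cmp.log hZ3) (Cmp.mul (Cmp.const 2) hn.wk1.wk1.wk1))))

/-- the iteration which finds the least hard `Λ` -/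
def gni (N p κ n y : ℕ) : ℕ :=
  Nat.rec 0 (fun _ ih => if good N p κ n ih then ih else ih + 1) y

theorem gni_le (N p κ n y : ℕ) : gni N p κ n y ≤ y := by
  induction y with
  | zero => exact Nat.zero_le _
  | succ y ih =>
    have h1 : gni N p κ n (y + 1) =
      if good N p κ n (gni N p κ n y) then gni N p κ n y else gni N p κ n y + 1 := rfl
    rw [h1]
    split_ifs <;> omega

theorem Cmp.gn (hN : Cmp bd N) (hp : Cmp bd p) (hp1 : ∀ a, 1 ≤ p a) (hκ : Cmp bd κ)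
    (hn : Cmp bd n) :
    Cmp bd (fun a => SP.gn (N a) (p a) (κ a) (n a)) := by
  have hm : Cmp bd (fun a => SP.pw (N a) 2 (SP.pw (N a) 2 (n a))) :=
    Cmp.pw hN (Cmp.const 2) (Cmp.pw hN (Cmp.const 2) hn)
  refine Cmp.natRec (g := fun _ => 0) (m := fun a => SP.pw (N a) 2 (SP.pw (N a) 2 (n a)))
    (h := fun x : α × ℕ × ℕ => if SP.good (N x.1) (p x.1) (κ x.1) (n x.1) x.2.2 then x.2.2
      else x.2.2 + 1) Cmp.zero hm ?_ ?_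
  · exact Cmp.ite (CmpP.good hN.wk hp.wk (fun x => hp1 x.1) hκ.wk hn.wk (Cmp.ih bd))
      (Cmp.ih bd) (Cmp.add (Cmp.ih bd) (Cmp.const 1))
  · obtain ⟨C, hC⟩ := hm.pb
    exact ⟨C, fun a y hy => (gni_le (N a) (p a) (κ a) (n a) y).trans (le_trans hy (hC a))⟩

/-- D4 -/
theorem cmp_hard (c : ℕ) (hc : 1 ≤ c) : Cmp (capN c) (hard c) := by
  have hX : Cmp (capN c) (fun X : ℕ => X) := by
    refine Cmp.var (Pb.ofLe fun X => ?_)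
    have h1 : X < 2 ^ (Nat.log 2 X + 1) := Nat.lt_pow_succ_log_self (by norm_num) X
    exact h1.le.trans (two_pow_le_capN c X _ ((log_lt c X hc).trans (le_eight c _)))
  have hn : Cmp (capN c) (fun X : ℕ => Nat.log 2 X) := Cmp.log hX
  have hcn : Cmp (capN c) (fun X : ℕ => 2 ^ (c * Nat.log 2 X)) := by
    refine Cmp.two_pow (Cmp.mul (Cmp.const c) hn) (Pb.ofLe fun X => ?_)
    exact two_pow_le_capN c X _ (Nat.lt_two_pow_self.le.trans (le_eight c _))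
  have hN : Cmp (capN c) (fun X : ℕ => capN c X) :=
    Cmp.two_pow (Cmp.mul (Cmp.const _) hcn) Pb.self
  have h2n : Cmp (capN c) (fun X : ℕ => 2 ^ Nat.log 2 X) := by
    refine Cmp.two_pow hn (Pb.ofLe fun X => ?_)
    refine two_pow_le_capN c X _ (le_trans ?_ (le_eight c _))
    have := log_lt c X hc
    omega
  have hκ : Cmp (capN c) (fun X : ℕ => kap c (Nat.log 2 X)) :=
    Cmp.div hcn (Cmp.pow_const (Cmp.succ hn) 2)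
  have hp : Cmp (capN c) (fun X : ℕ => np (4 * kap c (Nat.log 2 X) + 2)) :=
    Cmp.np (Cmp.add (Cmp.mul (Cmp.const 4) hκ) (Cmp.const 2))
  have hp1 : ∀ X : ℕ, 1 ≤ np (4 * kap c (Nat.log 2 X) + 2) := fun X =>
    (np_prime (by omega)).1.one_le
  have hr : Cmp (capN c) (fun X : ℕ => X - 2 ^ Nat.log 2 X) := Cmp.sub hX h2n
  exact Cmp.dg hN (Cmp.const 2) (Cmp.gn hN hp hp1 hκ hn) hr

end D4

end Pool.Agent.helper12.SP
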