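import Mathlib

/-!
# Space and one-dimensional cellular automata: definitions

Multi-tape machines and `DSPACE`; one-dimensional cellular automata with advice; the loop language
and the functions computable by it within given bounds; the number-coded simulation algorithm.
-/

set_option autoImplicit false

namespace Pool.Agent.helper12.SP

/-! ### Deterministic multi-tape Turing machines -/

/-- A deterministic Turing machine with a two-way read-only input tape and `k` work tapes (all tapes
are two-way infinite; the input symbol `none` is read outside the input).  In a state `q`, reading the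
input symbol `a` and the work tape symbols `x`, the machine halts if `δ q a x = none`; otherwise it
gets the new state, the symbols written on the work tapes, the move of the input head and the moves
of the work heads. -/
structure TM where
  /-- number of work tapes -/
  k : ℕ
  /-- states -/
  Q : Type
  /-- work tape symbols -/
  Γ : Type
  finQ : Finite Q
  finΓ : Finite Γ
  /-- blank symbol -/
  blank : Γ
  /-- initial state -/
  start : Q
  /-- accepting states -/
  acc : Set Q
  /-- transition function -/
  δ : Q → Option Bool → (Fin k → Γ) → Option (Q × (Fin k → Γ) × SignType × (Fin k → SignType))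

/-- A configuration. -/
structure Cfg (M : TM) where
  /-- state -/
  q : M.Q
  /-- position of the input head -/
  pos : ℤ
  /-- contents of the work tapes -/
  tape : Fin M.k → ℤ → M.Γ
  /-- positions of the work heads -/
  head : Fin M.k → ℤ

namespace TM

variable (M : TM)

/-- The input symbol at position `i`: the input occupies the cells `0, …, |w| - 1`. -/
def rd (w : List Bool) (i : ℤ) : Option Bool := if 0 ≤ i then w[i.toNat]? else none

/-- The initial configuration. -/
def init : Cfg M := ⟨M.start, 0, fun _ _ => M.blank, fun _ => 0⟩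

/-- One step on the input `w`; `none` if the machine halts. -/
def step (w : List Bool) (c : Cfg M) : Option (Cfg M) :=
  (M.δ c.q (rd w c.pos) fun j => c.tape j (c.head j)).map fun r =>
    ⟨r.1, c.pos + (r.2.2.1 : ℤ), fun j => Function.update (c.tape j) (c.head j) (r.2.1 j),
      fun j => c.head j + (r.2.2.2 j : ℤ)⟩

/-- The number of tape cells scanned in the configurations `cs 0, …, cs T`, on the input tape and on
the work tapes. -/
noncomputable def cells (cs : ℕ → Cfg M) (T : ℕ) : ℕ :=
  Set.ncard {i : ℤ | ∃ t ≤ T, (cs t).pos = i} +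
    ∑ j : Fin M.k, Set.ncard {i : ℤ | ∃ t ≤ T, (cs t).head j = i}

end TM

/-- `DSPACE s`: the languages decided by a deterministic multi-tape machine which, on every input
`w`, halts and scans at most `s |w|` tape cells (on the input tape and the work tapes together). -/
def DSPACE (s : ℕ → ℕ) : Set (Set (List Bool)) :=
  {L | ∃ M : TM, ∀ w : List Bool, ∃ (T : ℕ) (cs : ℕ → Cfg M), cs 0 = M.init ∧
    (∀ t < T, M.step w (cs t) = some (cs (t + 1))) ∧ M.step w (cs T) = none ∧
    ((cs T).q ∈ M.acc ↔ w ∈ L) ∧ M.cells cs T ≤ s w.length}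

/-! ### One-dimensional cellular automata with advice -/

/-- A one-dimensional cellular automaton (radius 1) for languages over `Bool`, with advice. -/
structure Aut where
  /-- states -/
  Q : Type
  finQ : Finite Q
  /-- the state of the cells without input or advice at time 0 -/
  blank : Q
  /-- the states of the cells with an input bit at time 0 -/
  inp : Bool → Q
  /-- the states of the cells with an advice bit at time 0 -/
  adv : Bool → Q
  /-- the local rule: left neighbour, cell, right neighbour -/
  rule : Q → Q → Q → Q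
  /-- the answer given by cell `0` in a state, if any -/
  out : Q → Option Bool

namespace Aut

variable (A : Aut)

/-- The cells at time `0`: the input `w` is in the cells `0, 1, …, |w| - 1`, the advice `α` in the
cells `-1, -2, …, -|α|`, all other cells are blank. -/
def cell (w α : List Bool) : ℤ → A.Q
  | Int.ofNat i => (w[i]?).elim A.blank A.inp
  | Int.negSucc i => (α[i]?).elim A.blank A.adv

/-- The state of the cell `x` at time `t`, on input `w` with advice `α`. -/
def conf (w α : List Bool) : ℕ → ℤ → A.Q
  | 0, x => A.cell w α x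
  | t + 1, x => A.rule (conf w α t (x - 1)) (conf w α t x) (conf w α t (x + 1))

/-- On input `w` with advice `α`, the automaton gives its answer at time `t` and the answer is `b`:
cell `0` is for the first time in a state with an answer. -/
def Answers (w α : List Bool) (t : ℕ) (b : Bool) : Prop :=
  A.out (A.conf w α t 0) = some b ∧ ∀ s < t, A.out (A.conf w α s 0) = none

end Aut

/-! ### The loop language -/

/-- Programs acting on registers with natural numbers as contents: `loop r a` is
`while r ≠ 0 do (r := r - 1; a)`. -/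
inductive Stmt where
  | skip : Stmt
  | inc (r : ℕ) : Stmt
  | seq (a b : Stmt) : Stmt
  | loop (r : ℕ) (a : Stmt) : Stmt

/-- `Ex B P σ σ'`: started with register contents `σ`, the program `P` terminates with register
contents `σ'`, and no register is ever increased to a value greater than `B`. -/
inductive Ex (B : ℕ) : Stmt → (ℕ → ℕ) → (ℕ → ℕ) → Prop
  | skip (σ : ℕ → ℕ) : Ex B .skip σ σ
  | inc (r : ℕ) (σ : ℕ → ℕ) (h : σ r + 1 ≤ B) : Ex B (.inc r) σ (Function.update σ r (σ r + 1))
  | seq {a b : Stmt} {σ σ' σ'' : ℕ → ℕ} (h : Ex B a σ σ') (h' : Ex B b σ' σ'') :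
      Ex B (.seq a b) σ σ''
  | loop_zero (r : ℕ) (a : Stmt) (σ : ℕ → ℕ) (h : σ r = 0) : Ex B (.loop r a) σ σ
  | loop_succ {r : ℕ} {a : Stmt} {σ σ' σ'' : ℕ → ℕ} {m : ℕ} (h : σ r = m + 1)
      (h1 : Ex B a (Function.update σ r m) σ') (h2 : Ex B (.loop r a) σ' σ'') :
      Ex B (.loop r a) σ σ''

/-- Tuples of natural numbers, laid out in registers. -/
class Ctx (α : Type) where
  /-- number of registers -/
  dim : ℕ
  /-- contents of the registers `0, …, dim - 1` -/
  reg : α → ℕ → ℕ

instance : Ctx ℕ := ⟨1, fun a _ => a⟩

instance {α β : Type} [Ctx α] [Ctx β] : Ctx (α × β) :=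
  ⟨Ctx.dim α + Ctx.dim β,
    fun x i => if i < Ctx.dim α then Ctx.reg x.1 i else Ctx.reg x.2 (i - Ctx.dim α)⟩

/-- `Pb bd f`: `f` is bounded by a polynomial in `bd`. -/
def Pb {α : Type} (bd f : α → ℕ) : Prop := ∃ C : ℕ, ∀ a, f a ≤ (C + bd a) ^ C

/-- `Cmp bd f`: `f` is polynomially bounded in `bd` and computed by loop programs all of whose
register contents are polynomially bounded in `bd`: wherever the arguments are (registers `loc i`),
wherever the result is wanted (register `o`), and whichever registers (from `s` on) are free, there is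
such a program; it leaves all registers but `o` as they were. -/
def Cmp {α : Type} [Ctx α] (bd f : α → ℕ) : Prop :=
  ∃ C : ℕ, (∀ a, f a ≤ (C + bd a) ^ C) ∧
    ∀ (loc : ℕ → ℕ) (o s : ℕ), o < s → (∀ i < Ctx.dim α, loc i < s ∧ loc i ≠ o) →
      ∃ P : Stmt, ∀ (a : α) (σ : ℕ → ℕ) (B : ℕ), (∀ i < Ctx.dim α, σ (loc i) = Ctx.reg a i) →
        σ o = 0 → (∀ r, s ≤ r → σ r = 0) → (C + bd a) ^ C ≤ B →
        Ex B P σ (Function.update σ o (f a))

/-! ### Words as numbers -/

/-- The number coding a word: its bits, the first one lowest, followed by a leading `1`. -/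
def num : List Bool → ℕ
  | [] => 1
  | b :: w => b.toNat + 2 * num w

/-! ### Cellular automata on numbers -/

/-- The rule coded by `(q, M)`. -/
def ntr (q M a b c : ℕ) : ℕ := M / q ^ ((a * q + b) * q + c) % q

/-- The cells at time `0`, for the input with code `X` and the advice with code `Z`. -/
def ncell (X Z : ℕ) : ℤ → ℕ
  | Int.ofNat i => if i < Nat.log 2 X then 1 + X / 2 ^ i % 2 else 0
  | Int.negSucc i => if i < Nat.log 2 Z then 3 + Z / 2 ^ i % 2 else 0

/-- The state of the cell `x` at time `t`. -/
def nconf (q M X Z : ℕ) : ℕ → ℤ → ℕ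
  | 0, x => ncell X Z x
  | t + 1, x => ntr q M (nconf q M X Z t (x - 1)) (nconf q M X Z t x) (nconf q M X Z t (x + 1))

/-- The state `a` means: the answer is no. -/
def nvd (q M a : ℕ) : ℕ := M / q ^ (q * q * q + a) % q

/-! ### The number-coded simulation algorithm

All powers are capped by `N`.  The parameters are: `N` the cap, `p` the prime, `κ` (the block length
is `2κ`, a block step is `κ` steps, there are `2κ` block steps), `(q, M)` the code of the automaton,
`X` the input, `Z` the advice. -/

/-- capped power -/
def pw (N a r : ℕ) : ℕ := min (a ^ r) N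

/-- the digit number `r` of `s` in base `a` -/
def dg (N a s r : ℕ) : ℕ := s / pw N a r % a

/-- one step of the automaton on an array with `D` cells (a number in base `q`); the new cell `y`
depends on the old cells `y - 2, y - 1, y` -/
def gs (N q M D z : ℕ) : ℕ :=
  ∑ y ∈ Finset.range D, (if 2 ≤ y then
    dg N q M ((dg N q z (y - 2) * q + dg N q z (y - 1)) * q + dg N q z y) else 0) * pw N q y

/-- `m` steps of the automaton on an array -/
def gi (N q M D z m : ℕ) : ℕ := Nat.rec z (fun _ ih => gs N q M D ih) m

/-- the register of the bank `k`, cell `i`, state `a` -/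
def ix (κ q k i a : ℕ) : ℕ := (k * (2 * κ) + i) * q + a

/-- `m ^ e` modulo `p` -/
def pm (p m e : ℕ) : ℕ := Nat.rec (1 % p) (fun _ ih => ih * m % p) e

/-- add `v` (modulo `p`) to the digit number `r` of `s` in base `p` -/
def up (N p s r v : ℕ) : ℕ :=
  s - dg N p s r * pw N p r + ((dg N p s r + v) % p) * pw N p r

/-- the product (modulo `p`) of the registers of the two input banks selected by the array `z` -/
def wt (N p κ q s o z : ℕ) : ℕ :=
  Nat.rec (1 % p) (fun j ih => ih * dg N p s (ix κ q (if j < 2 * κ then (o + 2) % 3 else (o + 1) % 3)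
    (j % (2 * κ)) (dg N q z j)) % p) (2 * (2 * κ))

/-- the part of the local operation for one array `z` -/
def lz (N p κ q M o m z s : ℕ) : ℕ :=
  Nat.rec s (fun i ih => up N p ih (ix κ q o i (dg N q (gi N q M (2 * (2 * κ)) z κ) (2 * κ + i)))
    ((p - pm p m (p - 1 - 2 * (2 * κ))) * wt N p κ q ih o z % p)) (2 * κ)

/-- the local operation with output bank `o` and multiplier `m` -/
def lo (N p κ q M o m s : ℕ) : ℕ :=
  Nat.rec s (fun z ih => lz N p κ q M o m z ih) (pw N q (2 * (2 * κ)))

/-- the cell `i` of the leaf block reached by `c` moves to the left -/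
def lv (N κ X Z c i : ℕ) : ℕ :=
  if c ≤ κ then
    (if (κ - c) * (2 * κ) + i < Nat.log 2 X then 1 + dg N 2 X ((κ - c) * (2 * κ) + i) else 0)
  else (if (c - κ) * (2 * κ) - i - 1 < Nat.log 2 Z then 3 + dg N 2 Z ((c - κ) * (2 * κ) - i - 1)
    else 0)

/-- the leaf operation -/
def lf (N p κ q X Z c o s : ℕ) : ℕ :=
  Nat.rec s (fun i ih => up N p ih (ix κ q o i (lv N κ X Z c i)) 1) (2 * κ)

/-- the slot (`0, 1`: the two recursive calls, `2`: the local operation) given by the digit number
`l` of `τ` in base `A` -/
def sl (N A τ l : ℕ) : ℕ := τ / pw N A l % A % 3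

/-- the number of calls on the way to the instruction number `τ` (levels are `h, h - 1, …`), looking
at the first `i` levels only -/
def tt (N A h τ i : ℕ) : ℕ :=
  Nat.rec 0 (fun i ih => if ih = i ∧ sl N A τ (h - 1 - i) ≠ 2 then ih + 1 else ih) i

/-- the number of moves to the left among the first `i` calls -/
def cc (N A h τ i : ℕ) : ℕ := ∑ j ∈ Finset.range i, sl N A τ (h - 1 - j)

/-- the instruction number `τ` -/
def st (N p κ q M X Z τ s : ℕ) : ℕ :=
  if tt N (3 * p) (2 * κ) τ (2 * κ) = 2 * κ then
    lf N p κ q X Z (cc N (3 * p) (2 * κ) τ (2 * κ))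
      ((2 * κ + cc N (3 * p) (2 * κ) τ (2 * κ)) % 3) s
  else if τ % pw N (3 * p) (2 * κ - 1 - tt N (3 * p) (2 * κ) τ (2 * κ)) = 0 then
    lo N p κ q M
      ((tt N (3 * p) (2 * κ) τ (2 * κ) + cc N (3 * p) (2 * κ) τ (tt N (3 * p) (2 * κ) τ (2 * κ))) % 3)
      (τ / pw N (3 * p) (2 * κ - 1 - tt N (3 * p) (2 * κ) τ (2 * κ)) % (3 * p) / 3 + 1) s
  else s

/-- the contents of the registers after `m` instructions -/
def rn (N p κ q M X Z m : ℕ) : ℕ := Nat.rec 0 (fun τ ih => st N p κ q M X Z τ ih) m

/-- the result: `1` if the automaton says no within `2κ²` steps, else `0` -/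
def ot (N p κ q M X Z : ℕ) : ℕ :=
  if ∃ a < q, dg N p (rn N p κ q M X Z (pw N (3 * p) (2 * κ))) (ix κ q 0 0 a) = 1 ∧
    dg N q M (q * q * q + a) = 1 then 1 else 0

/-! ### The diagonal language -/

/-- the automaton `(q, M)` with advice `Z` on the input number `r` of length `n` -/
def sm (N p κ n q M Z r : ℕ) : ℕ := ot N p κ q M (pw N 2 n + r) Z

/-- `1` if the triple `(q, M, Z)` is consistent with the bits of `Λ` on the inputs before `r` -/
def sv (N p κ n q M Z Λ r : ℕ) : ℕ :=
  if ∀ r' < r, sm N p κ n q M Z r' + dg N 2 Λ r' = 1 then 1 else 0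

/-- the number of consistent triples with the result `v` on the input number `r` -/
def ct (N p κ n v Λ r : ℕ) : ℕ :=
  ∑ q ∈ Finset.range n, ∑ M ∈ Finset.range n, ∑ Z ∈ Finset.range (pw N 2 (pw N 2 n + 1 - n)),
    (if sm N p κ n q M Z r = v then sv N p κ n q M Z Λ r else 0)

/-- the bit number `r` of the diagonal language -/
def lb (N p κ n Λ r : ℕ) : ℕ := if ct N p κ n 0 Λ r ≤ ct N p κ n 1 Λ r then 1 else 0

/-- the first `r` bits of the diagonal language -/
def la (N p κ n r : ℕ) : ℕ := Nat.rec 0 (fun r ih => ih + lb N p κ n ih r * pw N 2 r) r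

/-- the least prime `≥ x` -/
def np (x : ℕ) : ℕ := Nat.rec x (fun _ ih => if ih.Prime then ih else ih + 1) x

/-- the cap -/
def capN (c X : ℕ) : ℕ := 2 ^ ((8 * (c + 8)) * 2 ^ (c * Nat.log 2 X))

/-- the parameter `κ` for inputs of length `n` -/
def kap (c n : ℕ) : ℕ := 2 ^ (c * n) / (n + 1) ^ 2

/-- the characteristic function of the diagonal language -/
def dia (c X : ℕ) : ℕ :=
  lb (capN c X) (np (4 * kap c (Nat.log 2 X) + 2)) (kap c (Nat.log 2 X)) (Nat.log 2 X)
    (la (capN c X) (np (4 * kap c (Nat.log 2 X) + 2)) (kap c (Nat.log 2 X)) (Nat.log 2 X)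
      (X - 2 ^ Nat.log 2 X)) (X - 2 ^ Nat.log 2 X)

end Pool.Agent.helper12.SP
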