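import Pool.Agent.helper12.SP.Defs

/-!
# The interpolation identity
-/

set_option autoImplicit false

namespace Pool.Agent.helper12.SP

open Polynomial in
theorem sum_mu {p : ℕ} [Fact p.Prime] (D : ℕ) (hD : 1 ≤ D) (hp : D + 2 ≤ p) (R e : ℕ → ZMod p) :
    ∑ m ∈ Finset.range p, ((m + 1 : ℕ) : ZMod p) ^ (p - 1 - D) *
      ∏ j ∈ Finset.range D, (R j + ((m + 1 : ℕ) : ZMod p) * e j) =
      - ∏ j ∈ Finset.range D, e j := by
  classical
  set G : (ZMod p)[X] := ∏ j ∈ Finset.range D, (C (R j) + X * C (e j)) with hG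
  have hGe : ∀ x : ZMod p, ∏ j ∈ Finset.range D, (R j + x * e j) = G.eval x := by
    intro x
    rw [hG, eval_prod]
    refine Finset.prod_congr rfl fun j _ => ?_
    simp only [eval_add, eval_mul, eval_C, eval_X]
  -- the degree and the top coefficient
  have hdeg : ∀ n, (∏ j ∈ Finset.range n, (C (R j) + X * C (e j)) : (ZMod p)[X]).natDegree ≤ n ∧
      (∏ j ∈ Finset.range n, (C (R j) + X * C (e j)) : (ZMod p)[X]).coeff n =
        ∏ j ∈ Finset.range n, e j := by
    intro n
    induction n with
    | zero => simp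
    | succ n ih =>
      obtain ⟨h1, h2⟩ := ih
      have hl : (C (R n) + X * C (e n) : (ZMod p)[X]).natDegree ≤ 1 := by
        refine (natDegree_add_le _ _).trans (max_le (by simp) ?_)
        refine natDegree_mul_le.trans ?_
        simp only [natDegree_C, add_zero]
        exact natDegree_X_le
      constructor
      · rw [Finset.prod_range_succ]
        exact natDegree_mul_le.trans (by omega)
      · rw [Finset.prod_range_succ, Finset.prod_range_succ,
          coeff_mul_add_eq_of_natDegree_le h1 hl, h2]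
        simp
  obtain ⟨h1, h2⟩ := hdeg D
  rw [← hG] at h1 h2
  -- the sum over all elements of the field
  have hsum : ∑ m ∈ Finset.range p, ((m + 1 : ℕ) : ZMod p) ^ (p - 1 - D) *
      G.eval (((m + 1 : ℕ) : ZMod p)) = ∑ x : ZMod p, x ^ (p - 1 - D) * G.eval x := by
    have hpp : p.Prime := Fact.out
    have : NeZero p := ⟨hpp.ne_zero⟩
    refine Finset.sum_bij (fun m _ => ((m + 1 : ℕ) : ZMod p)) (fun _ _ => Finset.mem_univ _) ?_ ?_
      (fun _ _ => rfl)
    · intro a ha b hb hab
      have hab' : ((a : ℕ) : ZMod p) = ((b : ℕ) : ZMod p) := by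
        push_cast at hab
        exact add_right_cancel hab
      rw [ZMod.natCast_eq_natCast_iff'] at hab'
      rwa [Nat.mod_eq_of_lt (Finset.mem_range.1 ha), Nat.mod_eq_of_lt (Finset.mem_range.1 hb)] at hab'
    · intro x _
      refine ⟨(x - 1).val, Finset.mem_range.2 (ZMod.val_lt _), ?_⟩
      push_cast
      rw [ZMod.natCast_zmod_val]
      ring
  simp_rw [hGe]
  rw [hsum]
  have hexp : ∀ x : ZMod p, x ^ (p - 1 - D) * G.eval x =
      ∑ k ∈ Finset.range (D + 1), G.coeff k * x ^ (p - 1 - D + k) := by
    intro x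
    rw [eval_eq_sum_range' (Nat.lt_succ_of_le h1), Finset.mul_sum]
    refine Finset.sum_congr rfl fun k _ => ?_
    rw [pow_add]
    ring
  simp_rw [hexp]
  rw [Finset.sum_comm]
  simp_rw [← Finset.mul_sum]
  have hcard : Fintype.card (ZMod p) = p := ZMod.card p
  rw [Finset.sum_range_succ]
  have hlow : ∀ k ∈ Finset.range D, G.coeff k * ∑ x : ZMod p, x ^ (p - 1 - D + k) = 0 := by
    intro k hk
    have hk' := Finset.mem_range.1 hk
    rw [FiniteField.sum_pow_lt_card_sub_one, mul_zero]
    rw [hcard]
    omega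
  rw [Finset.sum_eq_zero hlow, zero_add, h2]
  have htop : ∑ x : ZMod p, x ^ (p - 1 - D + D) = -1 := by
    have hpp : p.Prime := Fact.out
    have he : p - 1 - D + D = p - 1 := by omega
    rw [he]
    have h3 : ∀ x : ZMod p, x ^ (p - 1) = if x = 0 then 0 else 1 := by
      intro x
      split_ifs with hx
      · rw [hx, zero_pow (by omega)]
      · exact ZMod.pow_card_sub_one_eq_one hx
    simp_rw [h3]
    rw [Finset.sum_ite]
    simp only [Finset.sum_const_zero, zero_add, Finset.sum_const, nsmul_eq_mul, mul_one]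
    have h4 : (Finset.univ.filter fun x : ZMod p => ¬ x = 0).card = p - 1 := by
      rw [Finset.filter_not, Finset.card_sdiff_of_subset (Finset.filter_subset _ _)]
      rw [Finset.card_univ, hcard]
      congr 1
      rw [Finset.card_eq_one]
      exact ⟨0, by ext x; simp⟩
    rw [h4, Nat.cast_sub hpp.one_lt.le]
    simp
  rw [htop]
  ring

end Pool.Agent.helper12.SP
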