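import Pool.Agent.helper12.SP.K

/-!
# Final assembly
-/

set_option autoImplicit false

namespace Pool.Agent.helper12.SP

theorem DSPACE_mono {s s' : ℕ → ℕ} (h : ∀ n, s n ≤ s' n) : DSPACE s ⊆ DSPACE s' := by
  rintro L ⟨M, hM⟩
  refine ⟨M, fun w => ?_⟩
  obtain ⟨T, cs, h1, h2, h3, h4, h5⟩ := hM w
  exact ⟨T, cs, h1, h2, h3, h4, h5.trans (h _)⟩

theorem num_bounds (w : List Bool) : 2 ^ w.length ≤ num w ∧ num w < 2 ^ (w.length + 1) := by
  induction w with
  | nil => simp [num]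
  | cons b w ih =>
    simp only [num, List.length_cons]
    rw [pow_succ 2 (w.length + 1), pow_succ 2 w.length] at *
    cases b <;> simp only [Bool.toNat_false, Bool.toNat_true] <;> omega

theorem num_surj : ∀ (n r : ℕ), r < 2 ^ n → ∃ w : List Bool, w.length = n ∧ num w = 2 ^ n + r := by
  intro n
  induction n with
  | zero =>
    intro r hr
    exact ⟨[], rfl, by simp only [num]; omega⟩
  | succ n ih =>
    intro r hr
    obtain ⟨w, hw, hw'⟩ := ih (r / 2) (by rw [pow_succ] at hr; omega)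
    refine ⟨decide (r % 2 = 1) :: w, by simp [hw], ?_⟩
    simp only [num]
    rw [hw', pow_succ]
    by_cases h : r % 2 = 1
    · simp only [h, decide_true, Bool.toNat_true]
      omega
    · simp only [h, decide_false, Bool.toNat_false]
      omega

theorem Answers_unique (A : Aut) {w α : List Bool} {t t' : ℕ} {b b' : Bool}
    (h : A.Answers w α t b) (h' : A.Answers w α t' b') : t = t' ∧ b = b' := by
  obtain ⟨h1, h2⟩ := h
  obtain ⟨h3, h4⟩ := h'
  have htt : t = t' := by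
    rcases Nat.lt_trichotomy t t' with hlt | heq | hgt
    · have := h4 t hlt
      rw [this] at h1
      cases h1
    · exact heq
    · have := h2 t' hgt
      rw [this] at h3
      cases h3
  subst htt
  rw [h1] at h3
  exact ⟨rfl, Option.some.inj h3⟩

theorem time_bound {c n t : ℕ} (hc : 1 ≤ c) (hn : 9 ≤ n) (ht : 2 * kap c n * kap c n < t) :
    2 ^ (2 * c * n) < t * (n + 1) ^ 4 := by
  have h1 : 2 ^ n ≤ 2 ^ (c * n) := Nat.pow_le_pow_right (by norm_num) (Nat.le_mul_of_pos_left n hc)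
  have h2 : 4 * (n + 1) ^ 2 ≤ 2 ^ n := by
    induction n, hn using Nat.le_induction with
    | base => norm_num
    | succ n hn ih =>
      clear ih ht h1
      have key : ∀ m, 9 ≤ m → 4 * (m + 1) ^ 2 ≤ 2 ^ m := by
        intro m hm
        induction m, hm using Nat.le_induction with
        | base => norm_num
        | succ m hm ih =>
          have : 4 * (m + 1 + 1) ^ 2 ≤ 2 * (4 * (m + 1) ^ 2) := by nlinarith
          rw [pow_succ 2 m]
          omega
      exact key _ (by omega)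
  have h3 : 2 ^ (c * n) < (kap c n + 1) * (n + 1) ^ 2 := by
    unfold kap
    rw [add_mul, one_mul]
    exact Nat.lt_div_mul_add (by positivity)
  have h4 : 2 ^ (2 * c * n) = (2 ^ (c * n)) ^ 2 := by
    rw [← pow_mul]
    congr 1
    ring
  rw [h4]
  set P := 2 ^ (c * n) with hP
  set m := (n + 1) ^ 2 with hm
  set K := kap c n with hK
  have h5 : (n + 1) ^ 4 = m ^ 2 := by rw [hm]; ring
  rw [h5]
  have h6 : 4 * m ≤ P := h2.trans h1
  have h7 : 3 * P ≤ 4 * (K * m) + P - 1 := by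
    have : (K + 1) * m = K * m + m := by ring
    omega
  have hP1 : 1 ≤ P := Nat.one_le_two_pow
  have h8 : 3 * P ≤ 4 * (K * m) + P := by omega
  -- P < K m + m, 4 m ≤ P
  have h9 : 3 * P < 4 * (K * m) + 1 := by
    have : (K + 1) * m = K * m + m := by ring
    omega
  have h10 : 9 * P ^ 2 ≤ 16 * (K * m) ^ 2 := by
    have : 3 * P ≤ 4 * (K * m) := by omega
    nlinarith
  have h11 : P ^ 2 < 2 * (K * m) ^ 2 + m ^ 2 := by
    have hm1 : 1 ≤ m := Nat.one_le_pow _ _ (by omega)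
    nlinarith
  calc P ^ 2 < 2 * (K * m) ^ 2 + m ^ 2 := h11
    _ = (2 * K * K + 1) * m ^ 2 := by ring
    _ ≤ t * m ^ 2 := Nat.mul_le_mul_right _ ht

/-- the final theorem, from the statements of the modules -/
theorem result_of
    (hspace : ∀ {f bd : ℕ → ℕ}, Cmp bd f → ∀ (s : ℕ → ℕ),
      (∀ X, 1 ≤ X → bd X ≤ 2 ^ s (Nat.log 2 X)) →
      ∃ C : ℕ, {w : List Bool | f (num w) ≠ 0} ∈ DSPACE (fun n => C * (s n + n + 1)))
    (hdia : ∀ c : ℕ, 1 ≤ c → Cmp (capN c) (dia c))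
    (hcode : ∀ A : Aut, ∃ q M : ℕ, 5 ≤ q ∧ ∀ (w α : List Bool) (T : ℕ),
      nvd q M (nconf q M (num w) (num α) T 0) = 1 ↔ ∃ t ≤ T, A.Answers w α t false)
    (hout : OutEq) (c : ℕ) (hc : 1 ≤ c) :
    ∃ L : Set (List Bool), (∃ C : ℕ, L ∈ DSPACE (fun n => C * 2 ^ (c * n))) ∧
      ∀ A : Aut, ∃ n₀ : ℕ, ∀ n ≥ n₀, ∀ α : List Bool, α.length ≤ 2 ^ n - n →
        ∃ w : List Bool, w.length = n ∧ ∀ (t : ℕ) (b : Bool), A.Answers w α t b →
          (b = true ↔ w ∈ L) → 2 ^ (2 * c * n) < t * (n + 1) ^ 4 := by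
  refine ⟨{w | dia c (num w) ≠ 0}, ?_, ?_⟩
  · obtain ⟨C, hC⟩ := hspace (hdia c hc) (fun n => (8 * (c + 8)) * 2 ^ (c * n))
      (fun X _ => le_rfl)
    refine ⟨C * (8 * (c + 8) + 1), DSPACE_mono (fun n => ?_) hC⟩
    have h1 : n + 1 ≤ 2 ^ (c * n) := by
      have h1 : 2 ^ n ≤ 2 ^ (c * n) :=
        Nat.pow_le_pow_right (by norm_num) (Nat.le_mul_of_pos_left n hc)
      have h2 : n + 1 ≤ 2 ^ n := Nat.lt_two_pow_self
      omega
    calc C * (8 * (c + 8) * 2 ^ (c * n) + n + 1)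
        ≤ C * (8 * (c + 8) * 2 ^ (c * n) + 2 ^ (c * n)) := Nat.mul_le_mul_left _ (by omega)
      _ = C * (8 * (c + 8) + 1) * 2 ^ (c * n) := by ring
  · intro A
    obtain ⟨q, M, hq, hcode⟩ := hcode A
    obtain ⟨n₀, hn₀⟩ := dia_spec_of hout c hc q M hq
    refine ⟨max n₀ 9, fun n hn α hα => ?_⟩
    have hn9 : 9 ≤ n := (le_max_right _ _).trans hn
    have hZ : num α < 2 ^ (2 ^ n + 1 - n) := by
      refine (num_bounds α).2.trans_le (Nat.pow_le_pow_right (by norm_num) ?_)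
      have : n < 2 ^ n := Nat.lt_two_pow_self
      omega
    obtain ⟨r, hr, hdr⟩ := hn₀ n ((le_max_left _ _).trans hn) (num α) hZ
    obtain ⟨w, hw, hwr⟩ := num_surj n r hr
    refine ⟨w, hw, fun t b hA hb => time_bound hc hn9 ?_⟩
    by_contra hcon
    push Not at hcon
    have hmem : w ∈ {w | dia c (num w) ≠ 0} ↔ ∃ t ≤ 2 * kap c n * kap c n,
        A.Answers w α t false := by
      rw [← hcode, hwr]
      change dia c (num w) ≠ 0 ↔ _
      rw [hwr, hdr]
      split_ifs with h <;> simp [h]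
    cases b with
    | true =>
      obtain ⟨t', _, ht'⟩ := hmem.1 (hb.1 rfl)
      exact absurd (Answers_unique A hA ht').2 (by simp)
    | false =>
      exact absurd (hb.2 (hmem.2 ⟨t, hcon, hA⟩)) (by simp)

end Pool.Agent.helper12.SP
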