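import Pool.Agent.helper74.SP.F
import Pool.Agent.helper22.SP.H1

/-!
# The simulation algorithm is correct
-/

set_option autoImplicit false

namespace Pool.Agent.helper12.SP

theorem out_eq {N p κ q M X Z : ℕ} (hp : p.Prime) (h1 : 4 * κ + 2 ≤ p) (hκ : 1 ≤ κ) (hq : 5 ≤ q)
    (hN1 : p ^ (6 * κ * q) ≤ N) (hN2 : q ^ (4 * κ) ≤ N) (hN3 : (3 * p) ^ (2 * κ) ≤ N)
    (hM : M < N) (hX : X < N) (hZ : Z < N) :
    ot N p κ q M X Z = if nvd q M (nconf q M X Z (2 * κ * κ) 0) = 1 then 1 else 0 := by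
  classical
  have : Fact p.Prime := ⟨hp⟩
  have hp2 : 2 ≤ p := hp.two_le
  -- the abstract run
  let val : ℕ → ℕ → (ℕ → ℕ → ZMod p) := fun l c => bval p κ q M X Z l c
  let loc : ℕ → (ℕ → ℕ → ZMod p) → (ℕ → ℕ → ZMod p) → (ℕ → ℕ → ZMod p) :=
    fun m y1 y2 => floc N p κ q M m y1 y2
  let S : ℕ → ℕ → (ℕ → ℕ → ZMod p) := fun t => Nat.rec (motive := fun _ => ℕ → (ℕ → ℕ → ZMod p))
    (fun _ => 0) (fun τ ih => ast N p (2 * κ) (val 0) loc τ ih) t
  have hleaf : ∀ c, (fun i a => if i < 2 * κ ∧ lv N κ X Z c i = a then (1 : ZMod p) else 0) =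
      val 0 c := by
    intro c
    funext i a
    change _ = bval p κ q M X Z 0 c i a
    unfold bval
    by_cases hi : i < 2 * κ
    · rw [lv_eq hX hZ hi]
      have e : (((κ : ℤ) - c) * (2 * κ) + i - (0 : ℕ) * κ) = ((κ : ℤ) - c) * (2 * κ) + i := by
        push_cast
        ring
      rw [e, Nat.zero_mul]
      rfl
    · simp [hi]
  have hrep : ∀ t, Rep N p κ q (rn N p κ q M X Z t) (S t) := by
    intro t
    induction t with
    | zero =>
      refine ⟨by change 0 < _; positivity, fun k _ i _ a _ => ?_⟩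
      change (((0 / _ % p : ℕ)) : ZMod p) = 0
      simp
    | succ t ih =>
      have e1 : rn N p κ q M X Z (t + 1) = st N p κ q M X Z t (rn N p κ q M X Z t) := rfl
      have e2 : S (t + 1) = ast N p (2 * κ) (val 0) loc t (S t) := rfl
      rw [e1, e2]
      unfold st ast
      split_ifs with c1 c2
      · have h := rep_lf hp2 hκ hq hN1 (Nat.mod_lt _ (by norm_num)) ih (X := X) (Z := Z)
          (c := cc N (3 * p) (2 * κ) t (2 * κ))
          (o := (2 * κ + cc N (3 * p) (2 * κ) t (2 * κ)) % 3)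
        rw [hleaf] at h
        exact h
      · exact rep_lo hp2 hκ hq h1 hN1 hN2 (Nat.mod_lt _ (by norm_num)) ih
      · exact ih
  have hcat := cat N p (2 * κ) (by omega) hN3 (fun v => by
    funext i a
    simp) val loc (fun l hl c R1 R2 => geo hp h1 hκ hq hN2 hM l c R1 R2) S (fun _ => rfl)
    (fun _ _ => rfl)
  have hpw : pw N (3 * p) (2 * κ) = (3 * p) ^ (2 * κ) := min_eq_left hN3
  obtain ⟨hlt, hdig⟩ := hrep (pw N (3 * p) (2 * κ))
  rw [hpw] at hdig
  have hfin : ∀ a < q, dg N p (rn N p κ q M X Z ((3 * p) ^ (2 * κ))) (ix κ q 0 0 a) = 1 ↔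
      nconf q M X Z (2 * κ * κ) 0 = a := by
    intro a ha
    have h2 := hdig 0 (by norm_num) 0 (by omega) a ha
    rw [hcat] at h2
    simp only [if_true] at h2
    change _ = bval p κ q M X Z (2 * κ) 0 0 a at h2
    unfold bval at h2
    have e : (((κ : ℤ) - (0 : ℕ)) * (2 * κ) + (0 : ℕ) - (2 * κ : ℕ) * κ) = 0 := by
      push_cast
      ring
    rw [e] at h2
    set d := dg N p (rn N p κ q M X Z ((3 * p) ^ (2 * κ))) (ix κ q 0 0 a) with hd
    have hdp : d < p := by
      rw [hd]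
      unfold dg
      exact Nat.mod_lt _ (by omega)
    have h3 : (d : ZMod p) = 1 ↔ d = 1 := by
      constructor
      · intro h
        have h4 : ((d : ℕ) : ZMod p) = ((1 : ℕ) : ZMod p) := by rw [h]; simp
        rw [ZMod.natCast_eq_natCast_iff'] at h4
        rwa [Nat.mod_eq_of_lt hdp, Nat.mod_eq_of_lt (by omega)] at h4
      · intro h
        rw [h]
        simp
    rw [← h3, h2]
    have hκ2 : 0 < 2 * κ := by omega
    by_cases hx : nconf q M X Z (2 * κ * κ) 0 = a
    · simp [hx, hκ2]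
    · simp [hx]
  have hvd : ∀ a, dg N q M (q * q * q + a) = nvd q M a := by
    intro a
    unfold dg nvd pw
    rcases le_total (q ^ (q * q * q + a)) N with h | h
    · rw [min_eq_left h]
    · rw [min_eq_right h, Nat.div_eq_of_lt hM, Nat.div_eq_of_lt (lt_of_lt_of_le hM h)]
  have hconf : nconf q M X Z (2 * κ * κ) 0 < q := by
    obtain ⟨t, ht⟩ : ∃ t, 2 * κ * κ = t + 1 := ⟨2 * κ * κ - 1, by
      have : 1 ≤ 2 * κ * κ := by nlinarith
      omega⟩
    rw [ht]
    exact Nat.mod_lt _ (by omega)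
  unfold ot
  rw [hpw]
  congr 1
  apply propext
  constructor
  · rintro ⟨a, ha, h2, h3⟩
    rw [hfin a ha] at h2
    rw [h2, ← hvd]
    exact h3
  · intro h
    refine ⟨_, hconf, (hfin _ hconf).2 rfl, ?_⟩
    rw [hvd]
    exact h

end Pool.Agent.helper12.SP
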