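import Mathlib

/-!
# The majority diagonalization
-/

set_option autoImplicit false

namespace Pool.Agent.helper12.SP

theorem majority {ι : Type} (s : Finset ι) (m : ℕ) (hs : s.card < 2 ^ m) (f : ι → ℕ → ℕ)
    (hf : ∀ i r, f i r = 0 ∨ f i r = 1) (L : ℕ → ℕ)
    (hL : ∀ r < m, L r = if ∑ i ∈ s, (if f i r = 0 then (if ∀ r' < r, f i r' + L r' = 1 then 1 else 0)
      else 0) ≤ ∑ i ∈ s, (if f i r = 1 then (if ∀ r' < r, f i r' + L r' = 1 then 1 else 0) else 0)
      then 1 else 0) :
    ∀ i ∈ s, ∃ r < m, L r = f i r := by
  classical
  -- the survivors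
  set S : ℕ → Finset ι := fun r => s.filter fun i => ∀ r' < r, f i r' + L r' = 1 with hS
  have hcount : ∀ r v, ∑ i ∈ s, (if f i r = v then (if ∀ r' < r, f i r' + L r' = 1 then 1 else 0)
      else 0) = ((S r).filter fun i => f i r = v).card := by
    intro r v
    rw [Finset.card_filter, hS]
    simp only
    rw [Finset.sum_filter]
    refine Finset.sum_congr rfl fun i _ => ?_
    split_ifs <;> rfl
  have hhalf : ∀ r < m, 2 * (S (r + 1)).card ≤ (S r).card := by
    intro r hr
    have h1 : ((S r).filter fun i => f i r = 0).card + ((S r).filter fun i => f i r = 1).card =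
        (S r).card := by
      rw [← Finset.card_filter_add_card_filter_not (s := S r) (fun i => f i r = 0)]
      congr 2
      refine Finset.filter_congr fun i _ => ?_
      rcases hf i r with h | h <;> simp [h]
    have h2 := hL r hr
    rw [hcount r 0, hcount r 1] at h2
    by_cases hle : ((S r).filter fun i => f i r = 0).card ≤ ((S r).filter fun i => f i r = 1).card
    · rw [if_pos hle] at h2
      have h3 : S (r + 1) ⊆ (S r).filter fun i => f i r = 0 := by
        intro i hi
        simp only [hS, Finset.mem_filter] at hi ⊢
        refine ⟨⟨hi.1, fun r' hr' => hi.2 r' (by omega)⟩, ?_⟩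
        have := hi.2 r (by omega)
        omega
      have := Finset.card_le_card h3
      omega
    · rw [if_neg hle] at h2
      have h3 : S (r + 1) ⊆ (S r).filter fun i => f i r = 1 := by
        intro i hi
        simp only [hS, Finset.mem_filter] at hi ⊢
        refine ⟨⟨hi.1, fun r' hr' => hi.2 r' (by omega)⟩, ?_⟩
        have := hi.2 r (by omega)
        omega
      have := Finset.card_le_card h3
      omega
  have hpow : ∀ r ≤ m, 2 ^ r * (S r).card ≤ s.card := by
    intro r
    induction r with
    | zero =>
      intro _
      simp [hS]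
    | succ r ih =>
      intro hr
      have h1 := ih (by omega)
      have h2 := hhalf r (by omega)
      have h3 : 2 ^ (r + 1) * (S (r + 1)).card = 2 ^ r * (2 * (S (r + 1)).card) := by ring
      rw [h3]
      exact (Nat.mul_le_mul_left _ h2).trans h1
  have hempty : (S m).card = 0 := by
    by_contra hne
    have h1 := hpow m le_rfl
    have h2 : 1 ≤ (S m).card := Nat.one_le_iff_ne_zero.2 hne
    have h3 : 2 ^ m * 1 ≤ 2 ^ m * (S m).card := Nat.mul_le_mul_left _ h2
    omega
  intro i hi
  by_contra hcon
  push Not at hcon
  have hmem : i ∈ S m := by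
    simp only [hS, Finset.mem_filter]
    refine ⟨hi, fun r hr => ?_⟩
    have h1 := hcon r hr
    have h2 := hL r hr
    rcases hf i r with h | h
    · rw [h] at h1 ⊢
      split_ifs at h2 with h3
      · omega
      · omega
    · rw [h] at h1 ⊢
      split_ifs at h2 with h3
      · omega
      · omega
  rw [Finset.card_eq_zero] at hempty
  rw [hempty] at hmem
  simp at hmem

end Pool.Agent.helper12.SP
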