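import Pool.Agent.helper12.SP.K1
import Pool.Agent.helper12.SP.J

/-!
# The diagonal language differs from all automata with advice
-/

set_option autoImplicit false

namespace Pool.Agent.helper12.SP

theorem sq_lt_two_pow {n : ℕ} (hn : 7 ≤ n) : 2 * (n * n) < 2 ^ n := by
  induction n, hn using Nat.le_induction with
  | base => norm_num
  | succ n hn ih =>
    have h1 : 2 * ((n + 1) * (n + 1)) ≤ 2 * (2 * (n * n)) := by nlinarith
    rw [pow_succ]
    omega

theorem sq_le_two_pow {n : ℕ} (hn : 6 ≤ n) : (n + 1) ^ 2 ≤ 2 ^ n := by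
  induction n, hn using Nat.le_induction with
  | base => norm_num
  | succ n hn ih =>
    have h1 : (n + 1 + 1) ^ 2 ≤ 2 * (n + 1) ^ 2 := by nlinarith
    rw [pow_succ 2 n]
    omega

/-- the cap for inputs of length `n` -/
def capn (c n : ℕ) : ℕ := 2 ^ ((8 * (c + 8)) * 2 ^ (c * n))

theorem two_pow_le_capn {c n e : ℕ} (h : e ≤ (8 * (c + 8)) * 2 ^ (c * n)) :
    2 ^ e ≤ capn c n := Nat.pow_le_pow_right (by norm_num) h

theorem pow_le_capn {c n a b e : ℕ} (ha : a ≤ 2 ^ b) (h : b * e ≤ (8 * (c + 8)) * 2 ^ (c * n)) :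
    a ^ e ≤ capn c n :=
  (Nat.pow_le_pow_left ha e).trans (by rw [← pow_mul]; exact two_pow_le_capn h)

theorem kap_mul_le (c n : ℕ) : kap c n * (n + 1) ^ 2 ≤ 2 ^ (c * n) := Nat.div_mul_le_self _ _

/-- all the inequalities needed -/
theorem params {c n : ℕ} (hc : 1 ≤ c) (hn : 7 ≤ n) :
    1 ≤ kap c n ∧ (np (4 * kap c n + 2)).Prime ∧ 4 * kap c n + 2 ≤ np (4 * kap c n + 2) ∧
    (∀ q < n, np (4 * kap c n + 2) ^ (6 * kap c n * q) ≤ capn c n) ∧
    (∀ q < n, q ^ (4 * kap c n) ≤ capn c n) ∧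
    (3 * np (4 * kap c n + 2)) ^ (2 * kap c n) ≤ capn c n ∧
    2 ^ (n + 1) ≤ capn c n ∧ 2 ^ 2 ^ n ≤ capn c n ∧ 2 ^ (2 ^ n + 1 - n) ≤ capn c n := by
  have h1 : 2 ^ n ≤ 2 ^ (c * n) := Nat.pow_le_pow_right (by norm_num) (Nat.le_mul_of_pos_left n hc)
  have h2 : n + 1 ≤ 2 ^ n := Nat.lt_two_pow_self
  obtain ⟨hp, hp1, hp2⟩ := np_prime (x := 4 * kap c n + 2) (by omega)
  have hk := kap_mul_le c n
  set K := kap c n with hK
  set P := 2 ^ (c * n) with hP
  have hK1 : 1 ≤ K := by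
    rw [hK, kap]
    exact (Nat.one_le_div_iff (by positivity)).2 ((sq_le_two_pow (by omega)).trans h1)
  have hKP : K ≤ P := by
    refine le_trans ?_ hk
    exact Nat.le_mul_of_pos_right K (by positivity)
  have hp3 : np (4 * K + 2) ≤ 2 ^ (c * n + 4) := by
    rw [pow_add, ← hP]
    have : 1 ≤ P := Nat.one_le_two_pow
    omega
  have hp4 : 3 * np (4 * K + 2) ≤ 2 ^ (c * n + 6) := by
    rw [pow_add] at hp3 ⊢
    omega
  refine ⟨hK1, hp, hp1, ?_, ?_, ?_, ?_, ?_, ?_⟩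
  · intro q hq
    refine pow_le_capn hp3 ?_
    calc (c * n + 4) * (6 * K * q) ≤ ((c + 4) * (n + 1)) * (6 * K * (n + 1)) := by
          refine Nat.mul_le_mul (by nlinarith) (Nat.mul_le_mul_left _ (by omega))
      _ = 6 * (c + 4) * (K * (n + 1) ^ 2) := by ring
      _ ≤ 6 * (c + 4) * P := Nat.mul_le_mul_left _ hk
      _ ≤ 8 * (c + 8) * P := Nat.mul_le_mul_right _ (by omega)
  · intro q hq
    refine pow_le_capn (b := n) ((by omega : q ≤ n).trans (by omega)) ?_
    calc n * (4 * K) ≤ 4 * (K * (n + 1) ^ 2) := by nlinarith [Nat.zero_le (K * n * n), Nat.zero_le (K * n)]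
      _ ≤ 4 * P := Nat.mul_le_mul_left _ hk
      _ ≤ 8 * (c + 8) * P := Nat.mul_le_mul_right _ (by omega)
  · refine pow_le_capn hp4 ?_
    calc (c * n + 6) * (2 * K) ≤ ((c + 6) * (n + 1)) * (2 * K * (n + 1)) := by
          refine Nat.mul_le_mul (by nlinarith) ?_
          exact Nat.le_mul_of_pos_right _ (by omega)
      _ = 2 * (c + 6) * (K * (n + 1) ^ 2) := by ring
      _ ≤ 2 * (c + 6) * P := Nat.mul_le_mul_left _ hk
      _ ≤ 8 * (c + 8) * P := Nat.mul_le_mul_right _ (by omega)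
  · refine two_pow_le_capn ?_
    rw [← hP]
    nlinarith
  · refine two_pow_le_capn ?_
    rw [← hP]
    nlinarith
  · refine two_pow_le_capn ?_
    rw [← hP]
    have : 2 ^ n + 1 - n ≤ 2 ^ n := by omega
    nlinarith

theorem ot_zero_or_one (N p κ q M X Z : ℕ) : ot N p κ q M X Z = 0 ∨ ot N p κ q M X Z = 1 := by
  unfold ot
  split_ifs <;> simp

theorem lb_zero_or_one (N p κ n Λ r : ℕ) : lb N p κ n Λ r = 0 ∨ lb N p κ n Λ r = 1 := by
  unfold lb
  split_ifs <;> simp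

theorem pw_eq {N a r : ℕ} (h : a ^ r ≤ N) : pw N a r = a ^ r := min_eq_left h

/-- the digits of a number with given bits -/
theorem la_digit (N p κ n m : ℕ) (hN : 2 ^ m ≤ N) :
    ∀ r ≤ m, la N p κ n r < 2 ^ r ∧ ∀ r' < r, dg N 2 (la N p κ n r) r' =
      lb N p κ n (la N p κ n r') r' := by
  intro r
  induction r with
  | zero =>
    intro _
    exact ⟨by simp [la], fun r' h => absurd h (Nat.not_lt_zero _)⟩
  | succ r ih =>
    intro hr
    obtain ⟨h1, h2⟩ := ih (by omega)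
    have hpw : ∀ s ≤ r, pw N 2 s = 2 ^ s := fun s hs =>
      pw_eq ((Nat.pow_le_pow_right (by norm_num) (by omega)).trans hN)
    have hla : la N p κ n (r + 1) = la N p κ n r + lb N p κ n (la N p κ n r) r * 2 ^ r := by
      rw [← hpw r le_rfl]
      rfl
    have hb := lb_zero_or_one N p κ n (la N p κ n r) r
    constructor
    · rw [hla, pow_succ]
      rcases hb with h | h <;> rw [h] <;> omega
    · intro r' hr'
      rcases Nat.lt_or_ge r' r with h | h
      · rw [← h2 r' h]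
        unfold dg
        rw [hpw r' (by omega), hla]
        have h3 : (2 : ℕ) ^ r = 2 ^ r' * (2 * 2 ^ (r - r' - 1)) := by
          rw [← pow_succ', ← pow_add]
          congr 1
          omega
        rw [h3]
        have h4 : la N p κ n r + lb N p κ n (la N p κ n r) r * (2 ^ r' * (2 * 2 ^ (r - r' - 1))) =
            la N p κ n r + 2 ^ r' * (2 * (lb N p κ n (la N p κ n r) r * 2 ^ (r - r' - 1))) := by ring
        rw [h4, Nat.add_mul_div_left _ _ (by positivity), Nat.add_mul_mod_self_left]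
      · have hrr : r' = r := by omega
        subst hrr
        unfold dg
        rw [hpw r' le_rfl, hla, Nat.add_mul_div_right _ _ (by positivity), Nat.div_eq_of_lt h1]
        rcases hb with h | h <;> rw [h]

theorem dia_eq {c n r : ℕ} (hr : r < 2 ^ n) : dia c (2 ^ n + r) =
    lb (capn c n) (np (4 * kap c n + 2)) (kap c n) n
      (la (capn c n) (np (4 * kap c n + 2)) (kap c n) n r) r := by
  have h1 : Nat.log 2 (2 ^ n + r) = n := by
    rw [Nat.log_eq_iff (Or.inr ⟨by norm_num, by positivity⟩)]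
    rw [pow_succ]
    omega
  unfold dia capN
  rw [h1]
  have h2 : 2 ^ n + r - 2 ^ n = r := by omega
  rw [h2]
  rfl

/-- the statement of the module H2 -/
def OutEq : Prop := ∀ {N p κ q M X Z : ℕ}, p.Prime → 4 * κ + 2 ≤ p → 1 ≤ κ → 5 ≤ q →
    p ^ (6 * κ * q) ≤ N → q ^ (4 * κ) ≤ N → (3 * p) ^ (2 * κ) ≤ N →
    M < N → X < N → Z < N →
    ot N p κ q M X Z = if nvd q M (nconf q M X Z (2 * κ * κ) 0) = 1 then 1 else 0

theorem dia_spec_of (hout : OutEq) (c : ℕ) (hc : 1 ≤ c) (q M : ℕ) (hq : 5 ≤ q) : ∃ n₀, ∀ n ≥ n₀,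
    ∀ Z < 2 ^ (2 ^ n + 1 - n), ∃ r < 2 ^ n, dia c (2 ^ n + r) =
      if nvd q M (nconf q M (2 ^ n + r) Z (2 * kap c n * kap c n) 0) = 1 then 1 else 0 := by
  refine ⟨max 7 (max (q + 1) (M + 1)), fun n hn Z hZ => ?_⟩
  have hn7 : 7 ≤ n := (le_max_left _ _).trans hn
  have hqn : q < n := ((le_max_left _ _).trans (le_max_right _ _)).trans hn
  have hMn : M < n := ((le_max_right _ _).trans (le_max_right _ _)).trans hn
  obtain ⟨hκ, hp, hp1, hN1, hN2, hN3, hN4, hN5, hN6⟩ := params hc hn7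
  set N := capn c n with hN
  set κ := kap c n with hκ'
  set p := np (4 * κ + 2) with hp'
  have hnn : n < 2 ^ n := Nat.lt_two_pow_self
  have hn1 : 2 ^ n + 2 ^ n ≤ N := by
    rw [pow_succ] at hN4
    omega
  have hpwn : pw N 2 n = 2 ^ n := pw_eq (by omega)
  have hpwZ : pw N 2 (pw N 2 n + 1 - n) = 2 ^ (2 ^ n + 1 - n) := by
    rw [hpwn]
    exact pw_eq hN6
  have hlt : ∀ z, z < 2 ^ (2 ^ n + 1 - n) → z < N := fun z hz => lt_of_lt_of_le hz hN6
  set L : ℕ → ℕ := fun r => lb N p κ n (la N p κ n r) r with hL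
  set s : Finset (ℕ × ℕ × ℕ) := Finset.range n ×ˢ Finset.range n ×ˢ
    Finset.range (2 ^ (2 ^ n + 1 - n)) with hs
  set f : ℕ × ℕ × ℕ → ℕ → ℕ := fun i r => sm N p κ n i.1 i.2.1 i.2.2 r with hf
  have hcard : s.card < 2 ^ 2 ^ n := by
    rw [hs, Finset.card_product, Finset.card_product, Finset.card_range, Finset.card_range]
    have h1 : 2 ^ (2 ^ n + 1 - n) * 2 ^ n = 2 * 2 ^ 2 ^ n := by
      rw [← pow_add, ← pow_succ']
      congr 1
      omega
    have h2 := sq_lt_two_pow hn7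
    have h3 : 0 < 2 ^ (2 ^ n + 1 - n) := by positivity
    have h4 : 2 * (n * n) * 2 ^ (2 ^ n + 1 - n) < 2 * 2 ^ 2 ^ n := by
      rw [← h1, mul_comm (2 ^ (2 ^ n + 1 - n)) (2 ^ n)]
      exact Nat.mul_lt_mul_of_pos_right h2 h3
    have h5 : n * (n * 2 ^ (2 ^ n + 1 - n)) * 2 = 2 * (n * n) * 2 ^ (2 ^ n + 1 - n) := by ring
    omega
  have hcons : ∀ (i : ℕ × ℕ × ℕ) (r : ℕ), r < 2 ^ n →
      sv N p κ n i.1 i.2.1 i.2.2 (la N p κ n r) r = if ∀ r' < r, f i r' + L r' = 1 then 1 else 0 := by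
    intro i r hr
    unfold sv
    have hd := (la_digit N p κ n (2 ^ n) hN5 r hr.le).2
    congr 1
    apply propext
    refine forall₂_congr fun r' hr' => ?_
    rw [hd r' hr']
  have hct : ∀ v r, r < 2 ^ n → ct N p κ n v (la N p κ n r) r = ∑ i ∈ s,
      (if f i r = v then (if ∀ r' < r, f i r' + L r' = 1 then 1 else 0) else 0) := by
    intro v r hr
    unfold ct
    rw [hs, Finset.sum_product]
    refine Finset.sum_congr rfl fun q' _ => ?_
    rw [Finset.sum_product]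
    refine Finset.sum_congr rfl fun M' _ => ?_
    rw [hpwZ]
    refine Finset.sum_congr rfl fun Z' _ => ?_
    rw [hcons (q', M', Z') r hr]
  obtain ⟨r, hr, hLr⟩ := majority s (2 ^ n) hcard f
    (fun i r => ot_zero_or_one _ _ _ _ _ _ _) L
    (fun r hr => by
      rw [← hct 0 r hr, ← hct 1 r hr]
      rfl) (q, M, Z) (by
        rw [hs]
        simp only [Finset.mem_product, Finset.mem_range]
        exact ⟨hqn, hMn, hZ⟩)
  refine ⟨r, hr, ?_⟩
  rw [dia_eq hr]
  change L r = _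
  rw [hLr]
  change ot N p κ q M (pw N 2 n + r) Z = _
  rw [hpwn]
  exact hout hp hp1 hκ hq (hN1 q hqn) (hN2 q hqn) hN3 (by omega) (by omega) (hlt Z hZ)

end Pool.Agent.helper12.SP
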