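import Pool.Agent.helper12.SP.Defs

/-!
# Parameters
-/

set_option autoImplicit false

namespace Pool.Agent.helper12.SP

theorem np_prime {x : ℕ} (hx : 1 ≤ x) : (np x).Prime ∧ x ≤ np x ∧ np x ≤ 2 * x := by
  have key : ∀ y : ℕ, ∀ v : ℕ, v = (Nat.rec (motive := fun _ => ℕ) x
      (fun _ ih => if ih.Prime then ih else ih + 1) y : ℕ) →
      x ≤ v ∧ v ≤ x + y ∧ (∀ r, x ≤ r → r < v → ¬ r.Prime) ∧ (v.Prime ∨ v = x + y) := by
    intro y
    induction y with
    | zero =>
      intro v hv
      subst hv
      exact ⟨le_rfl, le_rfl, fun r h1 h2 => absurd h1 (by simpa using h2), Or.inr rfl⟩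
    | succ y ih =>
      intro v hv
      obtain ⟨h1, h2, h3, h4⟩ := ih _ rfl
      set u := (Nat.rec (motive := fun _ => ℕ) x
        (fun _ ih => if ih.Prime then ih else ih + 1) y : ℕ) with hu
      have hv' : v = if u.Prime then u else u + 1 := hv
      by_cases hp : u.Prime
      · rw [if_pos hp] at hv'
        subst hv'
        exact ⟨h1, by omega, h3, Or.inl hp⟩
      · rw [if_neg hp] at hv'
        have h5 : u = x + y := h4.resolve_left hp
        subst hv'
        refine ⟨by omega, by omega, ?_, Or.inr (by omega)⟩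
        intro r hr1 hr2
        rcases Nat.lt_or_ge r u with h | h
        · exact h3 r hr1 h
        · have : r = u := by omega
          rw [this]
          exact hp
  obtain ⟨h1, h2, h3, h4⟩ := key x (np x) rfl
  refine ⟨?_, h1, by omega⟩
  rcases h4 with h4 | h4
  · exact h4
  · obtain ⟨r, hr, hr1, hr2⟩ := Nat.exists_prime_lt_and_le_two_mul x (by omega)
    rcases Nat.lt_or_ge r (np x) with h | h
    · exact absurd hr (h3 r hr1.le h)
    · have : np x = r := by omega
      rw [this]
      exact hr

end Pool.Agent.helper12.SP
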