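import Mathlib

/-!
# Counting: most truth tables are hard on average
-/

set_option autoImplicit false

namespace Pool.Agent.helper12.SP

open Finset

/-- a sum over all bit strings of a product is a product -/
theorem sum_bits (m : ℕ) (F : ℕ → ℕ → ℝ) :
    ∑ x ∈ range (2 ^ m), ∏ r ∈ range m, F r (x / 2 ^ r % 2) =
      ∏ r ∈ range m, (F r 0 + F r 1) := by
  induction m with
  | zero => simp
  | succ m ih =>
    have h1 : range (2 ^ (m + 1)) = range (2 ^ m + 2 ^ m) := by rw [pow_succ]; congr 1; omega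
    rw [h1, sum_range_add]
    have h2 : ∀ x ∈ range (2 ^ m), ∏ r ∈ range (m + 1), F r (x / 2 ^ r % 2) =
        (∏ r ∈ range m, F r (x / 2 ^ r % 2)) * F m 0 := by
      intro x hx
      rw [prod_range_succ, Nat.div_eq_of_lt (mem_range.1 hx)]
    have h3 : ∀ x ∈ range (2 ^ m), ∏ r ∈ range (m + 1), F r ((2 ^ m + x) / 2 ^ r % 2) =
        (∏ r ∈ range m, F r (x / 2 ^ r % 2)) * F m 1 := by
      intro x hx
      rw [prod_range_succ]
      congr 1
      · refine prod_congr rfl fun r hr => ?_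
        have hr' := mem_range.1 hr
        have h4 : (2 : ℕ) ^ m = 2 ^ r * (2 * 2 ^ (m - r - 1)) := by
          rw [← pow_succ', ← pow_add]
          congr 1
          omega
        rw [h4, Nat.mul_add_div (by positivity), Nat.mul_add_mod]
      · rw [Nat.add_div_left _ (by positivity), Nat.div_eq_of_lt (mem_range.1 hx)]
    rw [sum_congr rfl h2, sum_congr rfl h3, ← sum_mul, ← sum_mul, ih, prod_range_succ]
    ring

/-- Chernoff bound: few truth tables agree with a given one much more often than half of the time -/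
theorem chernoff (m : ℕ) (hm : 1 ≤ m) (f : ℕ → ℕ) (hf : ∀ r, f r = 0 ∨ f r = 1) (d : ℕ) :
    (((range (2 ^ m)).filter fun x => 2 * m * d < (2 * (∑ r ∈ range m,
      if f r + x / 2 ^ r % 2 = 1 then 1 else 0) - m) ^ 2).card : ℝ) ≤
      2 ^ m * Real.exp (-d) := by
  classical
  set g : ℕ → ℕ := fun x => ∑ r ∈ range m, if f r + x / 2 ^ r % 2 = 1 then 1 else 0 with hg
  set D : ℝ := Real.sqrt (2 * m * d) with hD
  have hD0 : 0 ≤ D := Real.sqrt_nonneg _
  have hD2 : D ^ 2 = 2 * m * d := Real.sq_sqrt (by positivity)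
  have hm0 : (0 : ℝ) < m := by exact_mod_cast hm
  set l : ℝ := D / m with hl
  have hl0 : 0 ≤ l := by positivity
  -- the exponential moment
  have hmom : ∑ x ∈ range (2 ^ m), Real.exp (l * (2 * (g x : ℝ) - m)) =
      (Real.exp l + Real.exp (-l)) ^ m := by
    have h1 : ∀ x ∈ range (2 ^ m), Real.exp (l * (2 * (g x : ℝ) - m)) =
        ∏ r ∈ range m, (if f r + x / 2 ^ r % 2 = 1 then Real.exp l else Real.exp (-l)) := by
      intro x _
      have h2 : l * (2 * (g x : ℝ) - m) =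
          ∑ r ∈ range m, (if f r + x / 2 ^ r % 2 = 1 then l else -l) := by
        have h3 : ∀ r ∈ range m, (if f r + x / 2 ^ r % 2 = 1 then l else -l) =
            l * (2 * ((if f r + x / 2 ^ r % 2 = 1 then 1 else 0 : ℕ) : ℝ) - 1) := by
          intro r _
          split_ifs <;> push_cast <;> ring
        rw [sum_congr rfl h3, ← mul_sum, sum_sub_distrib, ← mul_sum, hg]
        simp
      rw [h2, Real.exp_sum]
      refine prod_congr rfl fun r _ => ?_
      split_ifs <;> rfl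
    rw [sum_congr rfl h1, sum_bits m (fun r b => if f r + b = 1 then Real.exp l else Real.exp (-l))]
    have h4 : ∀ r ∈ range m, ((if f r + 0 = 1 then Real.exp l else Real.exp (-l)) +
        (if f r + 1 = 1 then Real.exp l else Real.exp (-l))) = Real.exp l + Real.exp (-l) := by
      intro r _
      rcases hf r with h | h
      · simp [h, add_comm]
      · simp [h]
    rw [prod_congr rfl h4, prod_const, card_range]
  have hcosh : Real.exp l + Real.exp (-l) ≤ 2 * Real.exp (l ^ 2 / 2) := by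
    have h := Real.cosh_le_exp_half_sq l
    rw [Real.cosh_eq] at h
    linarith
  have hup : ∑ x ∈ range (2 ^ m), Real.exp (l * (2 * (g x : ℝ) - m)) ≤
      2 ^ m * Real.exp (l ^ 2 / 2 * m) := by
    rw [hmom]
    calc (Real.exp l + Real.exp (-l)) ^ m ≤ (2 * Real.exp (l ^ 2 / 2)) ^ m :=
          pow_le_pow_left₀ (by positivity) hcosh m
      _ = 2 ^ m * Real.exp (l ^ 2 / 2 * m) := by
          rw [mul_pow, ← Real.exp_nat_mul]
          ring_nf
  set B := (range (2 ^ m)).filter fun x => 2 * m * d < (2 * g x - m) ^ 2 with hB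
  have hlow : (B.card : ℝ) * Real.exp (l * D) ≤
      ∑ x ∈ range (2 ^ m), Real.exp (l * (2 * (g x : ℝ) - m)) := by
    calc (B.card : ℝ) * Real.exp (l * D) = ∑ x ∈ B, Real.exp (l * D) := by
          rw [sum_const, nsmul_eq_mul]
      _ ≤ ∑ x ∈ B, Real.exp (l * (2 * (g x : ℝ) - m)) := by
          refine sum_le_sum fun x hx => ?_
          have hx' := (mem_filter.1 hx).2
          rw [Real.exp_le_exp]
          refine mul_le_mul_of_nonneg_left ?_ hl0
          have hpos : m ≤ 2 * g x := by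
            by_contra hcon
            have : 2 * g x - m = 0 := by omega
            rw [this] at hx'
            simp at hx'
          have h5 : ((2 * g x - m : ℕ) : ℝ) = 2 * (g x : ℝ) - m := by
            rw [Nat.cast_sub hpos]
            push_cast
            ring
          rw [← h5, hD]
          refine Real.sqrt_le_iff.2 ⟨by positivity, ?_⟩
          have : ((2 * m * d : ℕ) : ℝ) ≤ (((2 * g x - m) ^ 2 : ℕ) : ℝ) := by exact_mod_cast hx'.le
          push_cast at this ⊢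
          exact this
      _ ≤ ∑ x ∈ range (2 ^ m), Real.exp (l * (2 * (g x : ℝ) - m)) :=
          sum_le_sum_of_subset_of_nonneg (filter_subset _ _) fun _ _ _ => (Real.exp_pos _).le
  have hfin : (B.card : ℝ) * Real.exp (l * D) ≤ 2 ^ m * Real.exp (l ^ 2 / 2 * m) := hlow.trans hup
  have hlD : l * D = 2 * d := by
    rw [hl, div_mul_eq_mul_div, ← sq, hD2]
    field_simp
  have hl2 : l ^ 2 / 2 * m = d := by
    rw [hl, div_pow, hD2]
    field_simp
  rw [hlD, hl2] at hfin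
  have h6 : Real.exp (2 * d) = Real.exp d * Real.exp d := by rw [← Real.exp_add]; ring_nf
  rw [h6, ← mul_assoc] at hfin
  have h7 : (B.card : ℝ) * Real.exp d ≤ 2 ^ m := le_of_mul_le_mul_right hfin (Real.exp_pos _)
  rw [Real.exp_neg]
  rw [← div_eq_mul_inv, le_div_iff₀ (Real.exp_pos _)]
  exact h7

theorem sum_log (a : ℕ) : ∑ z ∈ range (2 ^ a), ((2 : ℝ) ^ Nat.log 2 z)⁻¹ ≤ a + 1 := by
  induction a with
  | zero => simp
  | succ a ih =>
    have h1 : range (2 ^ (a + 1)) = range (2 ^ a + 2 ^ a) := by rw [pow_succ]; congr 1; omega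
    rw [h1, sum_range_add]
    have h2 : ∀ x ∈ range (2 ^ a), ((2 : ℝ) ^ Nat.log 2 (2 ^ a + x))⁻¹ = ((2 : ℝ) ^ a)⁻¹ := by
      intro x hx
      have hx' := mem_range.1 hx
      have : Nat.log 2 (2 ^ a + x) = a := by
        rw [Nat.log_eq_iff (Or.inr ⟨by norm_num, by positivity⟩), pow_succ]
        omega
      rw [this]
    rw [sum_congr rfl h2, sum_const, card_range, nsmul_eq_mul]
    push_cast
    rw [mul_inv_cancel₀ (by positivity)]
    linarith

theorem card_exact (m : ℕ) (f : ℕ → ℕ) (hf : ∀ r, f r = 0 ∨ f r = 1) :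
    ((range (2 ^ m)).filter fun x => ¬ (∑ r ∈ range m,
      if f r + x / 2 ^ r % 2 = 1 then 1 else 0) < m).card ≤ 1 := by
  classical
  have h1 := sum_bits m (fun r b => if f r + b = 1 then 1 else 0)
  have h2 : ∏ r ∈ range m, ((if f r + 0 = 1 then (1 : ℝ) else 0) +
      (if f r + 1 = 1 then 1 else 0)) = 1 := by
    refine prod_eq_one fun r _ => ?_
    rcases hf r with h | h <;> simp [h]
  rw [h2] at h1
  set B := (range (2 ^ m)).filter fun x => ¬ (∑ r ∈ range m,
      if f r + x / 2 ^ r % 2 = 1 then 1 else 0) < m with hB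
  have h3 : (B.card : ℝ) ≤ 1 := by
    rw [← h1]
    calc (B.card : ℝ) = ∑ x ∈ B, (1 : ℝ) := by simp
      _ = ∑ x ∈ B, ∏ r ∈ range m, (if f r + x / 2 ^ r % 2 = 1 then (1 : ℝ) else 0) := by
          refine sum_congr rfl fun x hx => ?_
          symm
          refine prod_eq_one fun r hr => ?_
          have hx' := (mem_filter.1 hx).2
          rw [if_pos]
          by_contra hcon
          apply hx'
          calc ∑ r ∈ range m, (if f r + x / 2 ^ r % 2 = 1 then 1 else 0)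
              < ∑ r ∈ range m, 1 := by
                refine sum_lt_sum (fun i _ => by split_ifs <;> norm_num) ⟨r, hr, ?_⟩
                rw [if_neg hcon]
                norm_num
            _ = m := by simp
      _ ≤ ∑ x ∈ range (2 ^ m), ∏ r ∈ range m,
            (if f r + x / 2 ^ r % 2 = 1 then (1 : ℝ) else 0) := by
          refine sum_le_sum_of_subset_of_nonneg (filter_subset _ _) fun _ _ _ => ?_
          refine prod_nonneg fun _ _ => ?_
          split_ifs <;> norm_num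
  exact_mod_cast h3

theorem num_ineq {n : ℕ} (hn : 12 ≤ n) : n * n * (2 ^ n + 4) < 4 ^ n := by
  induction n, hn using Nat.le_induction with
  | base => norm_num
  | succ n hn ih =>
    have h1 : (n + 1) * (n + 1) * (2 ^ (n + 1) + 4) ≤ 4 * (n * n * (2 ^ n + 4)) := by
      have h2 : (n + 1) * (n + 1) ≤ 2 * (n * n) := by nlinarith
      have h3 : 2 ^ (n + 1) + 4 ≤ 2 * (2 ^ n + 4) := by rw [pow_succ]; omega
      calc (n + 1) * (n + 1) * (2 ^ (n + 1) + 4) ≤ (2 * (n * n)) * (2 * (2 ^ n + 4)) :=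
            Nat.mul_le_mul h2 h3
        _ = 4 * (n * n * (2 ^ n + 4)) := by ring
    rw [pow_succ 4 n]
    omega

/-- Some truth table of length `2 ^ n` is hard for all members of a family. -/
theorem exists_hard (n : ℕ) (hn : 12 ≤ n) (f : ℕ → ℕ → ℕ → ℕ → ℕ)
    (hf : ∀ q M Z r, f q M Z r = 0 ∨ f q M Z r = 1) :
    ∃ x < 2 ^ 2 ^ n, ∀ q < n, ∀ M < n, ∀ Z < 2 ^ (2 ^ n + 1 - 2 * n),
      (∑ r ∈ range (2 ^ n), if f q M Z r + x / 2 ^ r % 2 = 1 then 1 else 0) < 2 ^ n ∧
      (2 * (∑ r ∈ range (2 ^ n), if f q M Z r + x / 2 ^ r % 2 = 1 then 1 else 0) - 2 ^ n) ^ 2 ≤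
        2 * 2 ^ n * (Nat.log 2 Z + 2 * n) := by
  classical
  by_contra hcon
  push Not at hcon
  have h2n : 2 * n ≤ 2 ^ n := by
    have := num_ineq hn
    have h1 : ∀ k, 12 ≤ k → 2 * k ≤ 2 ^ k := by
      intro k hk
      induction k, hk using Nat.le_induction with
      | base => norm_num
      | succ k hk ih => rw [pow_succ]; omega
    exact h1 n hn
  set m := 2 ^ n with hm
  have hm1 : 1 ≤ m := Nat.one_le_two_pow
  set g : ℕ → ℕ → ℕ → ℕ → ℕ := fun q M Z x =>
    ∑ r ∈ range m, if f q M Z r + x / 2 ^ r % 2 = 1 then 1 else 0 with hg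
  set B : ℕ × ℕ × ℕ → Finset ℕ := fun i =>
    ((range (2 ^ m)).filter fun x => ¬ g i.1 i.2.1 i.2.2 x < m) ∪
    ((range (2 ^ m)).filter fun x =>
      2 * m * (Nat.log 2 i.2.2 + 2 * n) < (2 * g i.1 i.2.1 i.2.2 x - m) ^ 2) with hB
  set s : Finset (ℕ × ℕ × ℕ) := range n ×ˢ range n ×ˢ range (2 ^ (m + 1 - 2 * n)) with hs
  have hsub : range (2 ^ m) ⊆ s.biUnion B := by
    intro x hx
    obtain ⟨q, hq, M, hM, Z, hZ, hbad⟩ := hcon x (mem_range.1 hx)
    rw [mem_biUnion]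
    refine ⟨(q, M, Z), by simp [hs, hq, hM, hZ], ?_⟩
    rw [hB]
    simp only [mem_union, mem_filter]
    by_cases h : g q M Z x < m
    · exact Or.inr ⟨hx, hbad h⟩
    · exact Or.inl ⟨hx, h⟩
  have hcard : (2 : ℝ) ^ m ≤ ∑ i ∈ s, (1 + 2 ^ m * (((2 : ℝ) ^ Nat.log 2 i.2.2)⁻¹ * (4 ^ n)⁻¹)) := by
    have h1 : ((range (2 ^ m)).card : ℝ) ≤ ((∑ i ∈ s, (B i).card : ℕ) : ℝ) := by
      exact_mod_cast (card_le_card hsub).trans card_biUnion_le
    rw [card_range] at h1
    push_cast at h1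
    refine h1.trans (sum_le_sum fun i _ => ?_)
    have h2 : ((B i).card : ℝ) ≤ ((((range (2 ^ m)).filter fun x => ¬ g i.1 i.2.1 i.2.2 x < m).card +
        ((range (2 ^ m)).filter fun x => 2 * m * (Nat.log 2 i.2.2 + 2 * n) <
          (2 * g i.1 i.2.1 i.2.2 x - m) ^ 2).card : ℕ) : ℝ) := by
      exact_mod_cast card_union_le _ _
    refine h2.trans ?_
    push_cast
    refine add_le_add ?_ ?_
    · exact_mod_cast card_exact m (f i.1 i.2.1 i.2.2) (hf _ _ _)
    · refine (chernoff m hm1 (f i.1 i.2.1 i.2.2) (hf _ _ _) (Nat.log 2 i.2.2 + 2 * n)).trans ?_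
      refine mul_le_mul_of_nonneg_left ?_ (by positivity)
      have h3 : Real.exp (-((Nat.log 2 i.2.2 + 2 * n : ℕ) : ℝ)) =
          (Real.exp 1 ^ (Nat.log 2 i.2.2 + 2 * n))⁻¹ := by
        rw [Real.exp_neg, ← Real.exp_nat_mul, mul_one]
      rw [h3, ← mul_inv]
      refine inv_anti₀ (by positivity) ?_
      have h4 : (4 : ℝ) ^ n = 2 ^ (2 * n) := by rw [pow_mul]; norm_num
      rw [h4, ← pow_add]
      refine pow_le_pow_left₀ (by norm_num) ?_ _
      have := Real.add_one_le_exp (1 : ℝ)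
      linarith
  have hsum : ∑ i ∈ s, (1 + 2 ^ m * (((2 : ℝ) ^ Nat.log 2 i.2.2)⁻¹ * (4 ^ n)⁻¹)) ≤
      n * (n * (2 ^ (m + 1 - 2 * n) + 2 ^ m * (4 ^ n)⁻¹ * ((m + 1 - 2 * n : ℕ) + 1))) := by
    rw [hs, sum_product]
    have h1 : ∀ Q ∈ range n, ∑ y ∈ range n ×ˢ range (2 ^ (m + 1 - 2 * n)),
        ((1 : ℝ) + 2 ^ m * (((2 : ℝ) ^ Nat.log 2 (Q, y).2.2)⁻¹ * (4 ^ n)⁻¹)) ≤
        n * (2 ^ (m + 1 - 2 * n) + 2 ^ m * (4 ^ n)⁻¹ * ((m + 1 - 2 * n : ℕ) + 1)) := by
      intro Q _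
      rw [sum_product]
      have h2 : ∀ R ∈ range n, ∑ z ∈ range (2 ^ (m + 1 - 2 * n)),
          ((1 : ℝ) + 2 ^ m * (((2 : ℝ) ^ Nat.log 2 (Q, (R, z)).2.2)⁻¹ * (4 ^ n)⁻¹)) ≤
          2 ^ (m + 1 - 2 * n) + 2 ^ m * (4 ^ n)⁻¹ * ((m + 1 - 2 * n : ℕ) + 1) := by
        intro R _
        rw [sum_add_distrib]
        refine add_le_add (by simp) ?_
        have h3 := sum_log (m + 1 - 2 * n)
        calc ∑ z ∈ range (2 ^ (m + 1 - 2 * n)), (2 : ℝ) ^ m *
              (((2 : ℝ) ^ Nat.log 2 z)⁻¹ * (4 ^ n)⁻¹)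
            = 2 ^ m * (4 ^ n)⁻¹ * ∑ z ∈ range (2 ^ (m + 1 - 2 * n)),
              ((2 : ℝ) ^ Nat.log 2 z)⁻¹ := by
                rw [mul_sum]
                refine sum_congr rfl fun z _ => ?_
                ring
          _ ≤ _ := mul_le_mul_of_nonneg_left h3 (by positivity)
      calc _ ≤ ∑ R ∈ range n, ((2 : ℝ) ^ (m + 1 - 2 * n) +
            2 ^ m * (4 ^ n)⁻¹ * ((m + 1 - 2 * n : ℕ) + 1)) := sum_le_sum h2
        _ = _ := by rw [sum_const, card_range, nsmul_eq_mul]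
    calc _ ≤ ∑ Q ∈ range n, ((n : ℝ) * (2 ^ (m + 1 - 2 * n) +
          2 ^ m * (4 ^ n)⁻¹ * ((m + 1 - 2 * n : ℕ) + 1))) := sum_le_sum h1
      _ = _ := by rw [sum_const, card_range, nsmul_eq_mul]
  have hpow : (2 : ℝ) ^ (m + 1 - 2 * n) = 2 ^ m * (4 ^ n)⁻¹ * 2 := by
    have h1 : (4 : ℝ) ^ n = 2 ^ (2 * n) := by rw [pow_mul]; norm_num
    have h2 : (2 : ℝ) ^ (m + 1 - 2 * n) * 2 ^ (2 * n) = 2 ^ m * 2 := by
      rw [← pow_add, ← pow_succ]
      congr 1
      omega
    rw [h1, mul_assoc, mul_comm (((2 : ℝ) ^ (2 * n))⁻¹) 2, ← mul_assoc, ← h2]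
    field_simp
  have hm' : ((m + 1 - 2 * n : ℕ) : ℝ) ≤ m := by
    have : m + 1 - 2 * n ≤ m := by omega
    exact_mod_cast this
  have hfin : (2 : ℝ) ^ m ≤ 2 ^ m * (4 ^ n)⁻¹ * (n * n * (2 ^ n + 4)) := by
    refine (hcard.trans hsum).trans ?_
    rw [hpow]
    have h0 : (0 : ℝ) ≤ 2 ^ m * (4 ^ n)⁻¹ := by positivity
    have h1 : (m : ℝ) = 2 ^ n := by rw [hm]; push_cast; rfl
    have h2 : (n : ℝ) * (n * (2 ^ m * (4 ^ n)⁻¹ * 2 + 2 ^ m * (4 ^ n)⁻¹ *
        (((m + 1 - 2 * n : ℕ) : ℝ) + 1))) =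
        2 ^ m * (4 ^ n)⁻¹ * (n * n * (((m + 1 - 2 * n : ℕ) : ℝ) + 3)) := by ring
    rw [h2]
    refine mul_le_mul_of_nonneg_left ?_ h0
    refine mul_le_mul_of_nonneg_left ?_ (by positivity)
    linarith
  have h5 : ((n * n * (2 ^ n + 4) : ℕ) : ℝ) < ((4 ^ n : ℕ) : ℝ) := by
    exact_mod_cast num_ineq hn
  push_cast at h5
  have h6 : (2 : ℝ) ^ m * (4 ^ n)⁻¹ * (n * n * (2 ^ n + 4)) < 2 ^ m := by
    rw [mul_assoc]
    have h7 : ((4 : ℝ) ^ n)⁻¹ * (n * n * (2 ^ n + 4)) < 1 := by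
      rw [inv_mul_lt_iff₀ (by positivity), mul_one]
      exact h5
    have h8 : (0 : ℝ) < 2 ^ m := by positivity
    nlinarith
  linarith

end Pool.Agent.helper12.SP
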