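import Pool.Agent.helper12.SP.Fin
import Pool.Agent.helper12.SP.K2
import Pool.Agent.helper12.SP.Defs2

/-!
# The language which is hard on average
-/

set_option autoImplicit false

namespace Pool.Agent.helper12.SP

theorem gn_spec {N p κ n B : ℕ} (hB : pw N 2 (pw N 2 n) = B) (h : ∃ x < B, good N p κ n x) :
    gn N p κ n < B ∧ good N p κ n (gn N p κ n) := by
  classical
  have key : ∀ y : ℕ, ∀ v : ℕ, v = (Nat.rec (motive := fun _ => ℕ) 0
      (fun _ ih => if good N p κ n ih then ih else ih + 1) y : ℕ) →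
      v ≤ y ∧ (∀ r < v, ¬ good N p κ n r) ∧ (good N p κ n v ∨ v = y) := by
    intro y
    induction y with
    | zero =>
      intro v hv
      subst hv
      exact ⟨le_rfl, fun r h1 => absurd h1 (Nat.not_lt_zero _), Or.inr rfl⟩
    | succ y ih =>
      intro v hv
      obtain ⟨h2, h3, h4⟩ := ih _ rfl
      set u := (Nat.rec (motive := fun _ => ℕ) 0
        (fun _ ih => if good N p κ n ih then ih else ih + 1) y : ℕ) with hu
      have hv' : v = if good N p κ n u then u else u + 1 := hv
      by_cases hp : good N p κ n u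
      · rw [if_pos hp] at hv'
        subst hv'
        exact ⟨by omega, h3, Or.inl hp⟩
      · rw [if_neg hp] at hv'
        have h5 : u = y := h4.resolve_left hp
        subst hv'
        refine ⟨by omega, ?_, Or.inr (by omega)⟩
        intro r hr2
        rcases Nat.lt_or_ge r u with h | h
        · exact h3 r h
        · have : r = u := by omega
          rw [this]
          exact hp
  obtain ⟨h2, h3, h4⟩ := key B (gn N p κ n) (by unfold gn; rw [hB])
  obtain ⟨x, hx, hxg⟩ := h
  have h6 : gn N p κ n ≤ x := by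
    by_contra hcon
    exact h3 x (by omega) hxg
  refine ⟨by omega, ?_⟩
  rcases h4 with h4 | h4
  · exact h4
  · omega

theorem hard_eq {c n r : ℕ} (hr : r < 2 ^ n) : hard c (2 ^ n + r) =
    dg (capn c n) 2 (gn (capn c n) (np (4 * kap c n + 2)) (kap c n) n) r := by
  have h1 : Nat.log 2 (2 ^ n + r) = n := by
    rw [Nat.log_eq_iff (Or.inr ⟨by norm_num, by positivity⟩)]
    rw [pow_succ]
    omega
  unfold hard capN
  rw [h1]
  have h2 : 2 ^ n + r - 2 ^ n = r := by omega
  rw [h2]
  rfl

theorem hard_spec_of (hout : OutEq) (c : ℕ) (hc : 1 ≤ c) (q M : ℕ) (hq : 5 ≤ q) : ∃ n₀, ∀ n ≥ n₀,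
    ∀ Z < 2 ^ (2 ^ n + 1 - 2 * n),
      ((Finset.range (2 ^ n)).filter fun r => (if nvd q M (nconf q M (2 ^ n + r) Z
        (2 * kap c n * kap c n) 0) = 1 then 1 else 0) + hard c (2 ^ n + r) = 1).card < 2 ^ n ∧
      (2 * ((Finset.range (2 ^ n)).filter fun r => (if nvd q M (nconf q M (2 ^ n + r) Z
        (2 * kap c n * kap c n) 0) = 1 then 1 else 0) + hard c (2 ^ n + r) = 1).card - 2 ^ n) ^ 2 ≤
        2 * 2 ^ n * (Nat.log 2 Z + 2 * n) := by
  refine ⟨max 12 (max (q + 1) (M + 1)), fun n hn Z hZ => ?_⟩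
  have hn12 : 12 ≤ n := (le_max_left _ _).trans hn
  have hn7 : 7 ≤ n := by omega
  have hqn : q < n := ((le_max_left _ _).trans (le_max_right _ _)).trans hn
  have hMn : M < n := ((le_max_right _ _).trans (le_max_right _ _)).trans hn
  obtain ⟨hκ, hp, hp1, hN1, hN2, hN3, hN4, hN5, hN6⟩ := params hc hn7
  set N := capn c n with hN
  set κ := kap c n with hκ'
  set p := np (4 * κ + 2) with hp'
  have hnn : n < 2 ^ n := Nat.lt_two_pow_self
  have hn1 : 2 ^ n + 2 ^ n ≤ N := by
    rw [pow_succ] at hN4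
    omega
  have hpwn : pw N 2 n = 2 ^ n := pw_eq (by omega)
  have hpwm : pw N 2 (pw N 2 n) = 2 ^ 2 ^ n := by
    rw [hpwn]
    exact pw_eq hN5
  have hpwZ : pw N 2 (pw N 2 n + 1 - 2 * n) = 2 ^ (2 ^ n + 1 - 2 * n) := by
    rw [hpwn]
    exact pw_eq ((Nat.pow_le_pow_right (by norm_num) (by omega)).trans hN5)
  have hlt : ∀ z, z < 2 ^ (2 ^ n + 1 - 2 * n) → z < N := fun z hz =>
    lt_of_lt_of_le hz ((Nat.pow_le_pow_right (by norm_num) (by omega)).trans hN5)
  have hdg : ∀ x r, r < 2 ^ n → dg N 2 x r = x / 2 ^ r % 2 := by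
    intro x r hr
    unfold dg
    rw [pw_eq ((Nat.pow_le_pow_right (by norm_num) hr.le).trans hN5)]
  have hag : ∀ q' M' Z' x, ag N p κ n q' M' Z' x = ∑ r ∈ Finset.range (2 ^ n),
      if sm N p κ n q' M' Z' r + x / 2 ^ r % 2 = 1 then 1 else 0 := by
    intro q' M' Z' x
    unfold ag
    rw [hpwn]
    refine Finset.sum_congr rfl fun r hr => ?_
    rw [hdg x r (Finset.mem_range.1 hr)]
  obtain ⟨x, hx, hxg⟩ := exists_hard n hn12 (fun q' M' Z' r => sm N p κ n q' M' Z' r)
    (fun _ _ _ _ => ot_zero_or_one _ _ _ _ _ _ _)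
  have hgood : good N p κ n x := by
    intro q' hq' M' hM' Z' hZ'
    rw [hpwZ] at hZ'
    rw [hag, hpwn]
    exact hxg q' hq' M' hM' Z' hZ'
  obtain ⟨hg1, hg2⟩ := gn_spec hpwm ⟨x, hx, hgood⟩
  have h1 := hg2 q hqn M hMn Z (by rw [hpwZ]; exact hZ)
  rw [hag, hpwn] at h1
  have h2 : ∑ r ∈ Finset.range (2 ^ n), (if sm N p κ n q M Z r + gn N p κ n / 2 ^ r % 2 = 1 then
      1 else 0) = ((Finset.range (2 ^ n)).filter fun r => (if nvd q M (nconf q M (2 ^ n + r) Z
        (2 * κ * κ) 0) = 1 then 1 else 0) + hard c (2 ^ n + r) = 1).card := by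
    rw [Finset.card_filter]
    refine Finset.sum_congr rfl fun r hr => ?_
    have hr' := Finset.mem_range.1 hr
    rw [hard_eq hr', ← hN, ← hκ', ← hp', hdg _ r hr']
    have h3 : sm N p κ n q M Z r = if nvd q M (nconf q M (2 ^ n + r) Z
        (2 * κ * κ) 0) = 1 then 1 else 0 := by
      unfold sm
      rw [hpwn]
      exact hout hp hp1 hκ hq (hN1 q hqn) (hN2 q hqn) hN3 (by omega) (by omega) (hlt Z hZ)
    rw [h3]
  rw [h2] at h1
  exact h1

/-- the inputs of length `n` on which `A` with advice `α` gives within `2 ^ (2 c n) / (n + 1) ^ 4`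
steps the right answer -/
def right (A : Aut) (L : Set (List Bool)) (c n : ℕ) (α : List Bool) : Set (List Bool) :=
  {w | w.length = n ∧ ∃ (t : ℕ) (b : Bool), t * (n + 1) ^ 4 ≤ 2 ^ (2 * c * n) ∧
    A.Answers w α t b ∧ (b = true ↔ w ∈ L)}

theorem num_inj : ∀ w w' : List Bool, num w = num w' → w = w' := by
  intro w
  induction w with
  | nil =>
    intro w' h
    cases w' with
    | nil => rfl
    | cons b w' =>
      have h1 := (num_bounds (b :: w')).1
      have h2 : 2 ≤ 2 ^ (b :: w').length := by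
        rw [List.length_cons, pow_succ]
        have : 0 < 2 ^ w'.length := by positivity
        omega
      rw [← h] at h1
      simp only [num] at h1
      omega
  | cons b w ih =>
    intro w' h
    cases w' with
    | nil =>
      have h1 := (num_bounds (b :: w)).1
      have h2 : 2 ≤ 2 ^ (b :: w).length := by
        rw [List.length_cons, pow_succ]
        have : 0 < 2 ^ w.length := by positivity
        omega
      rw [h] at h1
      simp only [num] at h1
      omega
    | cons b' w' =>
      simp only [num] at h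
      have h1 : b = b' := by
        cases b <;> cases b' <;> simp only [Bool.toNat_false, Bool.toNat_true] at h <;> first
          | rfl
          | omega
      subst h1
      have h2 : num w = num w' := by omega
      rw [ih w' h2]

theorem hard_le (c X : ℕ) : hard c X ≤ 1 := by
  unfold hard dg
  omega

/-- the final theorem, from the statements of the modules -/
theorem result2_of
    (hspace : ∀ {f bd : ℕ → ℕ}, Cmp bd f → ∀ (s : ℕ → ℕ),
      (∀ X, 1 ≤ X → bd X ≤ 2 ^ s (Nat.log 2 X)) →
      ∃ C : ℕ, {w : List Bool | f (num w) ≠ 0} ∈ DSPACE (fun n => C * (s n + n + 1)))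
    (hhard : ∀ c : ℕ, 1 ≤ c → Cmp (capN c) (hard c))
    (hcode : ∀ A : Aut, ∃ q M : ℕ, 5 ≤ q ∧ ∀ (w α : List Bool) (T : ℕ),
      nvd q M (nconf q M (num w) (num α) T 0) = 1 ↔ ∃ t ≤ T, A.Answers w α t false)
    (hout : OutEq) (c : ℕ) (hc : 1 ≤ c) :
    ∃ L : Set (List Bool), (∃ C : ℕ, L ∈ DSPACE (fun n => C * 2 ^ (c * n))) ∧
      ∀ A : Aut, ∃ n₀ : ℕ, ∀ n ≥ n₀, ∀ α : List Bool,
        (α.length + 2 * n ≤ 2 ^ n → (right A L c n α).ncard < 2 ^ n) ∧
        (2 * (right A L c n α).ncard - 2 ^ n) ^ 2 ≤ 2 * 2 ^ n * (α.length + 2 * n) := by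
  refine ⟨{w | hard c (num w) ≠ 0}, ?_, ?_⟩
  · obtain ⟨C, hC⟩ := hspace (hhard c hc) (fun n => (8 * (c + 8)) * 2 ^ (c * n))
      (fun X _ => le_rfl)
    refine ⟨C * (8 * (c + 8) + 1), DSPACE_mono (fun n => ?_) hC⟩
    have h1 : n + 1 ≤ 2 ^ (c * n) := by
      have h1 : 2 ^ n ≤ 2 ^ (c * n) :=
        Nat.pow_le_pow_right (by norm_num) (Nat.le_mul_of_pos_left n hc)
      have h2 : n + 1 ≤ 2 ^ n := Nat.lt_two_pow_self
      omega
    calc C * (8 * (c + 8) * 2 ^ (c * n) + n + 1)
        ≤ C * (8 * (c + 8) * 2 ^ (c * n) + 2 ^ (c * n)) := Nat.mul_le_mul_left _ (by omega)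
      _ = C * (8 * (c + 8) + 1) * 2 ^ (c * n) := by ring
  · intro A
    obtain ⟨q, M, hq, hcode⟩ := hcode A
    obtain ⟨n₀, hn₀⟩ := hard_spec_of hout c hc q M hq
    refine ⟨max n₀ 9, fun n hn α => ?_⟩
    have hn9 : 9 ≤ n := (le_max_right _ _).trans hn
    have hlen : Nat.log 2 (num α) = α.length := by
      have h1 := num_bounds α
      have h2 : 0 < 2 ^ α.length := by positivity
      rw [Nat.log_eq_iff (Or.inr ⟨by norm_num, by omega⟩)]
      exact h1
    -- the right inputs, as numbers
    have hle : (right A {w | hard c (num w) ≠ 0} c n α).ncard ≤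
        ((Finset.range (2 ^ n)).filter fun r => (if nvd q M (nconf q M (2 ^ n + r) (num α)
          (2 * kap c n * kap c n) 0) = 1 then 1 else 0) + hard c (2 ^ n + r) = 1).card := by
      rw [← Set.ncard_coe_finset]
      refine Set.ncard_le_ncard_of_injOn (fun w => num w - 2 ^ n) ?_ ?_ (Set.toFinite _)
      · rintro w ⟨hw, t, b, ht, hA, hb⟩
        have hwb := num_bounds w
        rw [hw, pow_succ] at hwb
        have ht' : t ≤ 2 * kap c n * kap c n := by
          by_contra hcon
          have := time_bound (c := c) (n := n) hc hn9 (not_le.1 hcon)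
          omega
        have hwn : 2 ^ n + (num w - 2 ^ n) = num w := by omega
        simp only [Finset.coe_filter, Finset.mem_range, Set.mem_ofPred_eq]
        refine ⟨by omega, ?_⟩
        rw [hwn]
        have hb01 := hard_le c (num w)
        change b = true ↔ hard c (num w) ≠ 0 at hb
        cases b with
        | true =>
          have h1 : hard c (num w) ≠ 0 := hb.1 rfl
          have h2 : ¬ nvd q M (nconf q M (num w) (num α) (2 * kap c n * kap c n) 0) = 1 := by
            rw [hcode]
            rintro ⟨t', _, ht''⟩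
            exact absurd (Answers_unique A hA ht'').2 (by simp)
          rw [if_neg h2]
          omega
        | false =>
          have h1 : hard c (num w) = 0 := by
            by_contra hcon
            exact absurd (hb.2 hcon) (by simp)
          have h2 : nvd q M (nconf q M (num w) (num α) (2 * kap c n * kap c n) 0) = 1 := by
            rw [hcode]
            exact ⟨t, ht', hA⟩
          rw [if_pos h2, h1]
      · intro w hw w' hw' heq
        obtain ⟨hw1, -⟩ := hw
        obtain ⟨hw2, -⟩ := hw'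
        have h1 := num_bounds w
        have h2 := num_bounds w'
        rw [hw1] at h1
        rw [hw2] at h2
        have h3 : num w = num w' := by
          have : num w - 2 ^ n = num w' - 2 ^ n := heq
          omega
        exact num_inj w w' h3
    have hn2 : n ≤ 2 ^ n := Nat.lt_two_pow_self.le
    by_cases hα : α.length + 2 * n ≤ 2 ^ n
    · have hZ : num α < 2 ^ (2 ^ n + 1 - 2 * n) := by
        refine (num_bounds α).2.trans_le (Nat.pow_le_pow_right (by norm_num) ?_)
        omega
      obtain ⟨h1, h2⟩ := hn₀ n ((le_max_left _ _).trans hn) (num α) hZ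
      rw [hlen] at h2
      exact ⟨fun _ => lt_of_le_of_lt hle h1,
        (Nat.pow_le_pow_left (Nat.sub_le_sub_right (Nat.mul_le_mul_left _ hle) _) 2).trans h2⟩
    · refine ⟨fun h => absurd h hα, ?_⟩
      have h1 : (right A {w | hard c (num w) ≠ 0} c n α).ncard ≤ 2 ^ n :=
        hle.trans ((Finset.card_filter_le _ _).trans (by rw [Finset.card_range]))
      have h2 : 2 * (right A {w | hard c (num w) ≠ 0} c n α).ncard - 2 ^ n ≤ 2 ^ n := by omega
      calc _ ≤ (2 ^ n) ^ 2 := Nat.pow_le_pow_left h2 2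
        _ ≤ 2 * 2 ^ n * (α.length + 2 * n) := by nlinarith

end Pool.Agent.helper12.SP
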